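import Pool.Agent.MP_9673d9_co.Rich.Label

set_option autoImplicit false

open Finset

namespace Pool.Agent.MP_9673d9_co.Rich

/-- A new event.  Let `θ < θ' < θ + π`, no event at position `i` in `(θ, θ')`, and suppose that at `θ` one
class covers both positions `i ≠ k`, and the same at `θ'`.  Then there is an event at position `k` in
`(θ, θ')`.
Proof: otherwise `label` gives `y` for `i` and `x` for `k` on `(θ, θ')`.  `x ≠ y`: at a `φ` in the interval
(the midpoint) `Cov T i φ y`, `same T φ y = 1` and `count_add` give `below T φ y = i`; if `x = y` then also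
`below T φ y = k`, so `i = k`.  At `θ`: `Cov T i θ y`, `Cov T i θ z` give `ev θ y = ev θ z` (`Cov.ev_eq`), and
`Cov T k θ x`, `Cov T k θ z` give `ev θ x = ev θ z`; so `ev θ x = ev θ y`; in the same way
`ev θ' x = ev θ' y`.  By `ev_inj`, `x = y`, a contradiction. -/
theorem between {T : Finset (ℝ × ℝ)} {i k : ℕ} (hik : i ≠ k) (hi : i < T.card) (hk : k < T.card)
    {θ θ' : ℝ} (h1 : θ < θ') (h2 : θ' < θ + Real.pi) {z z' : ℝ × ℝ} (hz : Cov T i θ z)
    (hz2 : Cov T k θ z) (hz' : Cov T i θ' z') (hz2' : Cov T k θ' z')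
    (hno : ∀ φ, θ < φ → φ < θ' → ¬ Ev T i φ) : ∃ φ, θ < φ ∧ φ < θ' ∧ Ev T k φ := by
  by_contra hcon
  push Not at hcon
  obtain ⟨y, hy, hyα, hyβ⟩ := label hi h1 hno
  obtain ⟨x, hx, hxα, hxβ⟩ := label hk h1 hcon
  have hm1 : θ < (θ + θ') / 2 := by linarith
  have hm2 : (θ + θ') / 2 < θ' := by linarith
  obtain ⟨⟨-, a1, a2⟩, a3⟩ := hy _ hm1 hm2
  obtain ⟨⟨-, b1, b2⟩, b3⟩ := hx _ hm1 hm2
  have ca := count_add T ((θ + θ') / 2) y
  have cb := count_add T ((θ + θ') / 2) x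
  have e1 : ev θ x = ev θ y := (hxα.ev_eq hz2).trans (hyα.ev_eq hz).symm
  have e2 : ev θ' x = ev θ' y := (hxβ.ev_eq hz2').trans (hyβ.ev_eq hz').symm
  have hxy : x = y := ev_inj h1 h2 e1 e2
  subst hxy
  apply hik
  omega

end Pool.Agent.MP_9673d9_co.Rich
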