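import Pool.Agent.MP_9673d9_co.Rich.Count

set_option autoImplicit false

open Finset

namespace Pool.Agent.MP_9673d9_co.Rich

/-- every line through at least two points of `T` has `|d + above - below| ≥ D` -/
def Bad (T : Finset (ℝ × ℝ)) (d D : ℤ) : Prop :=
  ∀ (φ : ℝ) (y : ℝ × ℝ), y ∈ T → 2 ≤ same T φ y → D ≤ |d + (above T φ y : ℤ) - (below T φ y : ℤ)|

/-- event at position `i` whose class is centred far to the left -/
def LL (T : Finset (ℝ × ℝ)) (d D : ℤ) (i : ℕ) (φ : ℝ) : Prop :=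
  ∃ y, Cov T i φ y ∧ 2 ≤ same T φ y ∧ D ≤ d + (above T φ y : ℤ) - (below T φ y : ℤ)

/-- event at position `i` whose class is centred far to the right -/
def RR (T : Finset (ℝ × ℝ)) (d D : ℤ) (i : ℕ) (φ : ℝ) : Prop :=
  ∃ y, Cov T i φ y ∧ 2 ≤ same T φ y ∧ d + (above T φ y : ℤ) - (below T φ y : ℤ) ≤ -D

theorem LL.ev {T : Finset (ℝ × ℝ)} {d D : ℤ} {i : ℕ} {φ : ℝ} (h : LL T d D i φ) : Ev T i φ := by
  obtain ⟨y, h1, h2, _⟩ := h
  exact ⟨y, h1, h2⟩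

theorem RR.ev {T : Finset (ℝ × ℝ)} {d D : ℤ} {i : ℕ} {φ : ℝ} (h : RR T d D i φ) : Ev T i φ := by
  obtain ⟨y, h1, h2, _⟩ := h
  exact ⟨y, h1, h2⟩

theorem LL_or_RR {T : Finset (ℝ × ℝ)} {d D : ℤ} (hB : Bad T d D) {i : ℕ} {φ : ℝ} (h : Ev T i φ) :
    LL T d D i φ ∨ RR T d D i φ := by
  obtain ⟨y, h1, h2⟩ := h
  rcases le_abs.1 (hB φ y h1.1 h2) with h3 | h3
  · exact Or.inl ⟨y, h1, h2, h3⟩
  · exact Or.inr ⟨y, h1, h2, by omega⟩

theorem not_LL_RR {T : Finset (ℝ × ℝ)} {d D : ℤ} (hD : 0 < D) {i : ℕ} {φ : ℝ}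
    (h : LL T d D i φ) (h' : RR T d D i φ) : False := by
  obtain ⟨y, h1, -, h3⟩ := h
  obtain ⟨y', h1', -, h3'⟩ := h'
  have e := h1.ev_eq h1'
  rw [above_congr e, below_congr e] at h3
  omega

/-- position of a class centred to the left -/
theorem LL.pos {T : Finset (ℝ × ℝ)} {d D : ℤ} {i : ℕ} {φ : ℝ} (h : LL T d D i φ)
    (hf : d + (T.card : ℤ) - 1 - 2 * (i : ℤ) < D) : 1 ≤ i := by
  obtain ⟨y, h1, h2, h3⟩ := h
  obtain ⟨-, h4, h5⟩ := h1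
  omega

/-- a class centred to the left and covering a position in the window covers the previous position -/
theorem LL.down {T : Finset (ℝ × ℝ)} {d D : ℤ} {i : ℕ} {φ : ℝ} (h : LL T d D (i + 1) φ)
    (hf : d + (T.card : ℤ) - 1 - 2 * ((i : ℤ) + 1) < D) : LL T d D i φ := by
  obtain ⟨y, h1, h2, h3⟩ := h
  obtain ⟨h0, h4, h5⟩ := h1
  exact ⟨y, ⟨h0, by omega, by omega⟩, h2, h3⟩

/-- a class centred to the right and covering a position in the window covers the next position -/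
theorem RR.up {T : Finset (ℝ × ℝ)} {d D : ℤ} {i : ℕ} {φ : ℝ} (h : RR T d D i φ)
    (hf : -D < d + (T.card : ℤ) - 1 - 2 * (i : ℤ)) : RR T d D (i + 1) φ := by
  obtain ⟨y, h1, h2, h3⟩ := h
  obtain ⟨h0, h4, h5⟩ := h1
  exact ⟨y, ⟨h0, by omega, by omega⟩, h2, h3⟩

/-- a class covering the position `i` but not `i + 1` is centred to the left -/
theorem LL_of_new {T : Finset (ℝ × ℝ)} {d D : ℤ} (hB : Bad T d D) {i : ℕ} {φ : ℝ} (h : Ev T i φ)
    (hn : ¬ Ev T (i + 1) φ) (hf : -D < d + (T.card : ℤ) - 1 - 2 * (i : ℤ)) : LL T d D i φ := by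
  obtain ⟨y, h1, h2⟩ := h
  rcases le_abs.1 (hB φ y h1.1 h2) with h3 | h3
  · exact ⟨y, h1, h2, h3⟩
  · exfalso
    apply hn
    obtain ⟨h0, h4, h5⟩ := h1
    exact ⟨y, ⟨h0, by omega, by omega⟩, h2⟩

/-- size of a class centred to the left -/
theorem LL.size {T : Finset (ℝ × ℝ)} {d D : ℤ} {i : ℕ} {φ : ℝ} (h : LL T d D i φ) :
    ∃ y ∈ T, 2 ≤ same T φ y ∧ D + 1 - (d + (T.card : ℤ) - 1 - 2 * (i : ℤ)) ≤ (same T φ y : ℤ) := by
  obtain ⟨y, h1, h2, h3⟩ := h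
  obtain ⟨h0, h4, h5⟩ := h1
  have h6 := count_add T φ y
  exact ⟨y, h0, h2, by omega⟩

/-- reflection of the hypothesis -/
theorem Bad.refl {T : Finset (ℝ × ℝ)} {d D : ℤ} (hB : Bad T d D) : Bad T (-d) D := by
  intro φ y hy h2
  have h3 := hB (φ + Real.pi) y hy (by rwa [same_add_pi])
  rw [above_add_pi, below_add_pi] at h3
  rw [← abs_neg]
  convert h3 using 2
  ring

/-- reflection: the direction is turned by `π`, position `i` becomes `T.card - 1 - i` -/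
theorem RR.refl {T : Finset (ℝ × ℝ)} {d D : ℤ} {i : ℕ} {φ : ℝ} (h : RR T d D i φ) :
    LL T (-d) D (T.card - 1 - i) (φ + Real.pi) := by
  obtain ⟨y, h1, h2, h3⟩ := h
  obtain ⟨h0, h4, h5⟩ := h1
  refine ⟨y, ⟨h0, ?_, ?_⟩, by rwa [same_add_pi], ?_⟩
  · rw [below_add_pi]
    omega
  · rw [above_add_pi]
    omega
  · rw [above_add_pi, below_add_pi]
    omega

theorem Ev.refl {T : Finset (ℝ × ℝ)} {i : ℕ} (hi : i < T.card) {φ : ℝ}
    (h : Ev T (T.card - 1 - i) (φ + Real.pi)) : Ev T i φ := by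
  obtain ⟨y, h1, h2⟩ := h
  obtain ⟨h0, h4, h5⟩ := h1
  rw [below_add_pi] at h4
  rw [above_add_pi] at h5
  rw [same_add_pi] at h2
  exact ⟨y, ⟨h0, by omega, by omega⟩, h2⟩

end Pool.Agent.MP_9673d9_co.Rich
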