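import Pool.Agent.MP_9673d9_co.Rich.Gap
import Pool.Agent.MP_9673d9_co.Rich.Between
import Pool.Agent.MP_9673d9_co.Rich.Types

set_option autoImplicit false

open Finset

namespace Pool.Agent.MP_9673d9_co.Rich

/-- From a consecutive pair (left, right) at the position `i + 1` to a consecutive pair of the same kind.
Here `k = i + 1` and `0 ≤ d + T.card - 1 - 2 k ≤ 1`.
Proof: `LL T d D i θ₀` by `LL.down`.  Let `ν` be the next event at position `i` after `θ₀` (`exists_next`).  By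
`LL_or_RR` it is `LL` or `RR` at position `i`.
* `LL`: the pair `(θ₀, ν)` at position `i` (first alternative).
* `RR`: then `RR T d D (i + 1) ν` by `RR.up`, so `Ev T (i + 1) ν`, hence `θ₁ ≤ ν` (there is no event at `i + 1` in
  `(θ₀, θ₁)`).
  - `ν = θ₁`: the classes at `θ₀` and `θ₁` cover both positions `i` and `i + 1` (the class of `LL.down`, resp. of
    `RR.up`; or take the class at `i + 1` and at `i` and use that `LL.down`, `RR.up` keep the same `y`), so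
    `between` gives an event at position `i` in `(θ₀, θ₁) = (θ₀, ν)`, contradicting the choice of `ν`.
  - `θ₁ < ν`: let `μ` be the next event at position `i + 1` after `θ₁`; `μ ≤ ν`.  If `μ` is `RR`: the pair
    `(θ₁, μ)` at position `i + 1` (second alternative).  If `μ` is `LL`: then `LL T d D i μ` by `LL.down`, so
    `Ev T i μ` and `θ₀ < μ`, hence `ν ≤ μ`, so `μ = ν` is both `LL` and `RR` at position `i + 1`, impossible by
    `not_LL_RR`. -/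
theorem start_LR {T : Finset (ℝ × ℝ)} (hT : NC T) {d D : ℤ} (hB : Bad T d D) (hD : 4 ≤ D) {i : ℕ}
    (hi : i + 1 < T.card) (h0 : 0 ≤ d + (T.card : ℤ) - 1 - 2 * ((i : ℤ) + 1))
    (h1 : d + (T.card : ℤ) - 1 - 2 * ((i : ℤ) + 1) ≤ 1) {θ₀ θ₁ : ℝ} (hθ : θ₀ < θ₁)
    (hθ' : θ₁ < θ₀ + Real.pi) (hL : LL T d D (i + 1) θ₀) (hR : RR T d D (i + 1) θ₁)
    (hno : ∀ φ, θ₀ < φ → φ < θ₁ → ¬ Ev T (i + 1) φ) :
    (∃ θ θ' : ℝ, θ < θ' ∧ θ' < θ + Real.pi ∧ LL T d D i θ ∧ LL T d D i θ' ∧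
      ∀ φ, θ < φ → φ < θ' → ¬ Ev T i φ) ∨
    (∃ θ θ' : ℝ, θ < θ' ∧ θ' < θ + Real.pi ∧ RR T d D (i + 1) θ ∧ RR T d D (i + 1) θ' ∧
      ∀ φ, θ < φ → φ < θ' → ¬ Ev T (i + 1) φ) := by
  have hL' := hL.down (by omega)
  obtain ⟨ν, n1, n2, n3, n4⟩ := exists_next hT (show i < T.card by omega) θ₀
  rcases LL_or_RR hB n3 with hν | hν
  · exact Or.inl ⟨θ₀, ν, n1, n2, hL', hν, n4⟩
  · have hν' : RR T d D (i + 1) ν := hν.up (by omega)
    have h5 : θ₁ ≤ ν := by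
      by_contra hcon
      exact hno ν n1 (not_le.1 hcon) hν'.ev
    rcases h5.eq_or_lt with h6 | h6
    · exfalso
      obtain ⟨y, ⟨a0, a1, a2⟩, a3, a4⟩ := hL
      rw [← h6] at hν
      obtain ⟨y', ⟨b0, b1, b2⟩, b3, b4⟩ := hν
      obtain ⟨φ, c1, c2, c3⟩ := between (T := T) (i := i + 1) (k := i) (by omega) hi (by omega) hθ hθ'
        (z := y) (z' := y') ⟨a0, a1, a2⟩ ⟨a0, by omega, by omega⟩ ⟨b0, by omega, by omega⟩
        ⟨b0, b1, b2⟩ hno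
      exact n4 φ c1 (by rw [← h6]; exact c2) c3
    · obtain ⟨μ, m1, m2, m3, m4⟩ := exists_next hT hi θ₁
      have hμν : μ ≤ ν := by
        by_contra hcon
        exact m4 ν h6 (not_le.1 hcon) hν'.ev
      rcases LL_or_RR hB m3 with hμ | hμ
      · exfalso
        have hμ' := hμ.down (by omega)
        have h7 : ν ≤ μ := by
          by_contra hcon
          exact n4 μ (hθ.trans m1) (not_le.1 hcon) hμ'.ev
        have h8 : μ = ν := le_antisymm hμν h7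
        subst h8
        exact not_LL_RR (by omega) hμ hν'
      · exact Or.inr ⟨θ₁, μ, m1, m2, hR, hμ, m4⟩

/-- Existence of a consecutive pair of the same kind.
Proof: `i₀ = ((T.card - 1 + d) / 2).toNat`, so `f₀ = d + T.card - 1 - 2 i₀ ∈ {0, 1}` and `i₀ < T.card` (by `hd`).
Let `θ₀` be an event at position `i₀` (`exists_next` from `0`), `θ₁` the next one, `θ₂` the next one after `θ₁`.
If two neighbours are of the same kind (`LL_or_RR`) we are done with `i = i₀`.  Otherwise there is a consecutive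
pair of kinds (LL, RR) among `(θ₀, θ₁)`, `(θ₁, θ₂)`; `LL.pos` gives `i₀ = i + 1`; apply `start_LR`. -/
theorem start {T : Finset (ℝ × ℝ)} (hT : NC T) {d D : ℤ} (hB : Bad T d D) (hD : 4 ≤ D)
    (hd : |d| ≤ (T.card : ℤ) - 1) :
    (∃ i : ℕ, i < T.card ∧ 0 ≤ d + (T.card : ℤ) - 1 - 2 * (i : ℤ) ∧
      d + (T.card : ℤ) - 1 - 2 * (i : ℤ) ≤ 3 ∧
      ∃ θ θ' : ℝ, θ < θ' ∧ θ' < θ + Real.pi ∧ LL T d D i θ ∧ LL T d D i θ' ∧
      ∀ φ, θ < φ → φ < θ' → ¬ Ev T i φ) ∨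
    (∃ i : ℕ, i < T.card ∧ 0 ≤ d + (T.card : ℤ) - 1 - 2 * (i : ℤ) ∧
      d + (T.card : ℤ) - 1 - 2 * (i : ℤ) ≤ 1 ∧
      ∃ θ θ' : ℝ, θ < θ' ∧ θ' < θ + Real.pi ∧ RR T d D i θ ∧ RR T d D i θ' ∧
      ∀ φ, θ < φ → φ < θ' → ¬ Ev T i φ) := by
  have hd1 := abs_le.1 hd
  obtain ⟨i, hi⟩ : ∃ i : ℕ, (i : ℤ) = ((T.card : ℤ) - 1 + d) / 2 :=
    ⟨(((T.card : ℤ) - 1 + d) / 2).toNat, Int.toNat_of_nonneg (by omega)⟩
  have hi0 : i < T.card := by omega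
  have f0 : 0 ≤ d + (T.card : ℤ) - 1 - 2 * (i : ℤ) := by omega
  have f1 : d + (T.card : ℤ) - 1 - 2 * (i : ℤ) ≤ 1 := by omega
  clear hi
  obtain ⟨θ₀, -, -, e0, -⟩ := exists_next hT hi0 0
  obtain ⟨θ₁, a1, a2, e1, a3⟩ := exists_next hT hi0 θ₀
  obtain ⟨θ₂, b1, b2, e2, b3⟩ := exists_next hT hi0 θ₁
  have key : ∀ θ θ' : ℝ, θ < θ' → θ' < θ + Real.pi → LL T d D i θ → RR T d D i θ' →
      (∀ φ, θ < φ → φ < θ' → ¬ Ev T i φ) →
      (∃ i : ℕ, i < T.card ∧ 0 ≤ d + (T.card : ℤ) - 1 - 2 * (i : ℤ) ∧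
      d + (T.card : ℤ) - 1 - 2 * (i : ℤ) ≤ 3 ∧
      ∃ θ θ' : ℝ, θ < θ' ∧ θ' < θ + Real.pi ∧ LL T d D i θ ∧ LL T d D i θ' ∧
      ∀ φ, θ < φ → φ < θ' → ¬ Ev T i φ) ∨
    (∃ i : ℕ, i < T.card ∧ 0 ≤ d + (T.card : ℤ) - 1 - 2 * (i : ℤ) ∧
      d + (T.card : ℤ) - 1 - 2 * (i : ℤ) ≤ 1 ∧
      ∃ θ θ' : ℝ, θ < θ' ∧ θ' < θ + Real.pi ∧ RR T d D i θ ∧ RR T d D i θ' ∧
      ∀ φ, θ < φ → φ < θ' → ¬ Ev T i φ) := by
    intro θ θ' h1 h2 hL hR hno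
    have h3 := hL.pos (by omega)
    obtain ⟨k, rfl⟩ : ∃ k, i = k + 1 := ⟨i - 1, by omega⟩
    push_cast at f0 f1
    rcases start_LR hT hB hD hi0 f0 f1 h1 h2 hL hR hno with ⟨α, β, g⟩ | ⟨α, β, g⟩
    · exact Or.inl ⟨k, by omega, by omega, by omega, α, β, g⟩
    · exact Or.inr ⟨k + 1, hi0, by push_cast; exact f0, by push_cast; exact f1, α, β, g⟩
  rcases LL_or_RR hB e0 with h0 | h0
  · rcases LL_or_RR hB e1 with h1 | h1
    · exact Or.inl ⟨i, hi0, f0, by omega, θ₀, θ₁, a1, a2, h0, h1, a3⟩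
    · exact key θ₀ θ₁ a1 a2 h0 h1 a3
  · rcases LL_or_RR hB e1 with h1 | h1
    · rcases LL_or_RR hB e2 with h2 | h2
      · exact Or.inl ⟨i, hi0, f0, by omega, θ₁, θ₂, b1, b2, h1, h2, b3⟩
      · exact key θ₁ θ₂ b1 b2 h1 h2 b3
    · exact Or.inr ⟨i, hi0, f0, f1, θ₀, θ₁, a1, a2, h0, h1, a3⟩

end Pool.Agent.MP_9673d9_co.Rich
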