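import Pool.Agent.MP_9673d9_co.Rich.Label

set_option autoImplicit false

open Finset

namespace Pool.Agent.MP_9673d9_co.Rich

/-- `T` is not contained in a line -/
def NC (T : Finset (ℝ × ℝ)) : Prop := ∀ φ c : ℝ, ∃ z ∈ T, ev φ z ≠ c

/-- There is an event at position `i` in every open half-turn.
Proof: otherwise `label` gives `y ∈ T` (from `Cov`) with `same T φ y = 1` for all `φ ∈ (θ, θ + π)`.  By `NC` there
is `z ∈ T` with `ev θ z ≠ ev θ y`; by `ev_cross` some `φ ∈ (θ, θ + π)` has `ev φ z = ev φ y`.  As `z ≠ y`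
(their values differ at `θ`), both are counted in `same T φ y`, so `2 ≤ same T φ y`, a contradiction. -/
theorem exists_event {T : Finset (ℝ × ℝ)} (hT : NC T) {i : ℕ} (hi : i < T.card) (θ : ℝ) :
    ∃ φ, θ < φ ∧ φ < θ + Real.pi ∧ Ev T i φ := by
  by_contra hcon
  push Not at hcon
  obtain ⟨y, h1, h2, h3⟩ := label hi (by linarith [Real.pi_pos] : θ < θ + Real.pi) hcon
  obtain ⟨z, hz, hne⟩ := hT θ (ev θ y)
  obtain ⟨φ, p1, p2, p3⟩ := ev_cross θ hne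
  obtain ⟨hc, hs⟩ := h1 φ p1 p2
  have hzy : z ≠ y := fun h => hne (by rw [h])
  have h4 : 1 < same T φ y := by
    unfold same
    rw [Finset.one_lt_card]
    exact ⟨z, Finset.mem_filter.2 ⟨hz, p3⟩, y, Finset.mem_filter.2 ⟨h2.1, rfl⟩, hzy⟩
  omega

/-- Finiteness of the set of events in a half-turn.
Proof: an event `φ` has a `y ∈ T` with `2 ≤ same T φ y`, hence a pair `p ≠ q` of points of `T` with
`ev φ p = ev φ q` (`Finset.one_lt_card`).  So the set is contained in the union over the finitely many pairs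
`(p, q) ∈ T ×ˢ T` with `p ≠ q` of `{φ | θ < φ ∧ φ < θ + π ∧ ev φ p = ev φ q}`, and each of these is
`Set.Subsingleton` by `ev_inj` (two elements of `(θ, θ + π)` differ by less than `π`).
`Set.Finite.subset (Set.Finite.biUnion ..)`, `Set.Subsingleton.finite`. -/
theorem events_finite (T : Finset (ℝ × ℝ)) (i : ℕ) (θ : ℝ) :
    {φ : ℝ | θ < φ ∧ φ < θ + Real.pi ∧ Ev T i φ}.Finite := by
  classical
  refine Set.Finite.subset
    (s := ⋃ r ∈ (((T ×ˢ T).filter fun r : (ℝ × ℝ) × (ℝ × ℝ) => r.1 ≠ r.2 : Finset ((ℝ × ℝ) × (ℝ × ℝ))) :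
      Set ((ℝ × ℝ) × (ℝ × ℝ))), {φ : ℝ | θ < φ ∧ φ < θ + Real.pi ∧ ev φ r.1 = ev φ r.2}) ?_ ?_
  · refine Set.Finite.biUnion (Finset.finite_toSet _) fun r hr => ?_
    refine Set.Subsingleton.finite ?_
    intro a ha b hb
    by_contra hab
    have hr' := (Finset.mem_filter.1 (Finset.mem_coe.1 hr)).2
    rcases lt_or_gt_of_ne hab with h | h
    · exact hr' (ev_inj h (by linarith [hb.2.1, ha.1]) ha.2.2 hb.2.2)
    · exact hr' (ev_inj h (by linarith [ha.2.1, hb.1]) hb.2.2 ha.2.2)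
  · rintro φ ⟨p1, p2, y, hc, hs⟩
    have hs' : 1 < (T.filter fun p => ev φ p = ev φ y).card := hs
    obtain ⟨p, hp, q, hq, hpq⟩ := Finset.one_lt_card.1 hs'
    rw [Finset.mem_filter] at hp hq
    refine Set.mem_biUnion (x := (p, q)) ?_ ⟨p1, p2, hp.2.trans hq.2.symm⟩
    exact Finset.mem_coe.2 (Finset.mem_filter.2 ⟨Finset.mem_product.2 ⟨hp.1, hq.1⟩, hpq⟩)

/-- The first event at position `i` in `(θ, θ')`, if there is one.
Proof: the set of events in `(θ, θ')` is finite (`events_finite`, subset) and non-empty; take its minimum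
(`Set.exists_min_image _ id`). -/
theorem exists_first {T : Finset (ℝ × ℝ)} {i : ℕ} {θ θ' : ℝ} (h : θ' ≤ θ + Real.pi)
    (hex : ∃ φ, θ < φ ∧ φ < θ' ∧ Ev T i φ) :
    ∃ φ, θ < φ ∧ φ < θ' ∧ Ev T i φ ∧ ∀ ψ, θ < ψ → ψ < φ → ¬ Ev T i ψ := by
  have hfin : {φ : ℝ | θ < φ ∧ φ < θ' ∧ Ev T i φ}.Finite :=
    (events_finite T i θ).subset (fun φ hφ => ⟨hφ.1, by linarith [hφ.2.1], hφ.2.2⟩)
  obtain ⟨φ, hφ, hmin⟩ := Set.exists_min_image _ id hfin hex
  exact ⟨φ, hφ.1, hφ.2.1, hφ.2.2, fun ψ h1 h2 h3 =>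
    absurd (hmin ψ ⟨h1, h2.trans hφ.2.1, h3⟩) (not_le.2 h2)⟩

/-- The last event at position `i` in `(θ, θ')`, if there is one (maximum instead of minimum). -/
theorem exists_last {T : Finset (ℝ × ℝ)} {i : ℕ} {θ θ' : ℝ} (h : θ' ≤ θ + Real.pi)
    (hex : ∃ φ, θ < φ ∧ φ < θ' ∧ Ev T i φ) :
    ∃ φ, θ < φ ∧ φ < θ' ∧ Ev T i φ ∧ ∀ ψ, φ < ψ → ψ < θ' → ¬ Ev T i ψ := by
  have hfin : {φ : ℝ | θ < φ ∧ φ < θ' ∧ Ev T i φ}.Finite :=
    (events_finite T i θ).subset (fun φ hφ => ⟨hφ.1, by linarith [hφ.2.1], hφ.2.2⟩)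
  obtain ⟨φ, hφ, hmax⟩ := Set.exists_max_image _ id hfin hex
  exact ⟨φ, hφ.1, hφ.2.1, hφ.2.2, fun ψ h1 h2 h3 =>
    absurd (hmax ψ ⟨hφ.1.trans h1, h2, h3⟩) (not_le.2 h1)⟩

/-- The next event at position `i` after `θ` (from `exists_event` and `exists_first` with `θ' = θ + π`). -/
theorem exists_next {T : Finset (ℝ × ℝ)} (hT : NC T) {i : ℕ} (hi : i < T.card) (θ : ℝ) :
    ∃ φ, θ < φ ∧ φ < θ + Real.pi ∧ Ev T i φ ∧ ∀ ψ, θ < ψ → ψ < φ → ¬ Ev T i ψ := by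
  exact exists_first le_rfl (exists_event hT hi θ)

end Pool.Agent.MP_9673d9_co.Rich
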