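import Pool.Agent.MP_9673d9_co.Space

set_option autoImplicit false

open Finset

namespace Pool.Agent.MP_9673d9_co.Rich

/-- some plane through two distinct points of `S` has imbalance at most `C` -/
def Balanced (S : Finset (Fin 3 → ℝ)) (C : ℤ) : Prop :=
  ∃ p ∈ S, ∃ q ∈ S, p ≠ q ∧
    ∃ v : Fin 3 → ℝ, v ≠ 0 ∧ ∃ c : ℝ,
      (∑ i, v i * p i = c) ∧ (∑ i, v i * q i = c) ∧
      |((S.filter (fun x => ∑ i, v i * x i < c)).card : ℤ)
        - ((S.filter (fun x => c < ∑ i, v i * x i)).card : ℤ)| ≤ C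

theorem coef (l : (Fin 3 → ℝ) →ₗ[ℝ] ℝ) (x : Fin 3 → ℝ) :
    ∑ i, l (Pi.single i 1) * x i = l x := by
  have h4 : x = ∑ i, x i • (Pi.single i 1 : Fin 3 → ℝ) := by
    funext j
    rw [Finset.sum_apply]
    simp [Pi.single_apply]
  conv_rhs => rw [h4]
  rw [map_sum]
  refine Finset.sum_congr rfl fun i _ => ?_
  rw [map_smul, smul_eq_mul, mul_comm]

theorem coef_ne {l : (Fin 3 → ℝ) →ₗ[ℝ] ℝ} (hl : l ≠ 0) :
    (fun i => l (Pi.single i 1) : Fin 3 → ℝ) ≠ 0 := by
  intro h0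
  apply hl
  refine LinearMap.ext fun x => ?_
  rw [← coef l x, LinearMap.zero_apply]
  refine Finset.sum_eq_zero fun i _ => ?_
  have h4 : l (Pi.single i 1) = 0 := congrFun h0 i
  rw [h4, zero_mul]

theorem balanced_of (S : Finset (Fin 3 → ℝ)) (C : ℤ) (l : (Fin 3 → ℝ) →ₗ[ℝ] ℝ) (c : ℝ)
    (hl : l ≠ 0) (h2 : 2 ≤ (S.filter fun s => l s + c = 0).card)
    (h3 : |∑ s ∈ S, sg (l s + c)| ≤ C) : Balanced S C := by
  classical
  obtain ⟨p, hp, q, hq, hpq⟩ := Finset.one_lt_card.1 h2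
  rw [Finset.mem_filter] at hp hq
  refine ⟨p, hp.1, q, hq.1, hpq, fun i => l (Pi.single i 1), coef_ne hl, -c, ?_, ?_, ?_⟩
  · rw [coef]
    linarith [hp.2]
  · rw [coef]
    linarith [hq.2]
  · simp only [coef]
    rw [sum_sg] at h3
    have e1 : (S.filter fun x => l x < -c) = S.filter fun x => l x + c < 0 := by
      refine Finset.filter_congr fun x _ => ?_
      constructor <;> intro h <;> linarith
    have e2 : (S.filter fun x => -c < l x) = S.filter fun x => 0 < l x + c := by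
      refine Finset.filter_congr fun x _ => ?_
      constructor <;> intro h <;> linarith
    rw [e1, e2, abs_sub_comm]
    exact h3

theorem hbad_of {S : Finset (Fin 3 → ℝ)} {C : ℤ} (h : ¬ Balanced S C) :
    ∀ (l : (Fin 3 → ℝ) →ₗ[ℝ] ℝ) (c : ℝ), l ≠ 0 →
      2 ≤ (S.filter fun s => l s + c = 0).card → C < |∑ s ∈ S, sg (l s + c)| := by
  intro l c hl h2
  by_contra h3
  exact h (balanced_of S C l c hl h2 (not_lt.1 h3))

end Pool.Agent.MP_9673d9_co.Rich
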