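import Pool.Agent.MP_9673d9_co.Space

set_option autoImplicit false

open Finset

namespace Pool.Agent.MP_9673d9_co.Rich

/-- Reduction to a plane through `p` and `q`. -/
theorem reduce (S : Finset (Fin 3 → ℝ)) (B : ℤ) (hB0 : 0 ≤ B)
    (hbad : ∀ (l : (Fin 3 → ℝ) →ₗ[ℝ] ℝ) (c : ℝ), l ≠ 0 →
      2 ≤ (S.filter fun s => l s + c = 0).card → B < |∑ s ∈ S, sg (l s + c)|)
    (p q : Fin 3 → ℝ) (hp : p ∈ S) (hq : q ∈ S) (hpq : p ≠ q) :
    ∃ (h A1 A2 : (Fin 3 → ℝ) →ₗ[ℝ] ℝ) (a : Fin 3 → ℝ), h ≠ 0 ∧ h (q - p) = 0 ∧ a ∈ S ∧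
      h (a - p) = 0 ∧ A1 (q - p) = 1 ∧ A2 (q - p) = 0 ∧ A1 (a - p) = 0 ∧ A2 (a - p) = 1 ∧
      (∀ y, h y = 0 → y = A1 y • (q - p) + A2 y • (a - p)) ∧
      |∑ s ∈ S, sg (h (s - p))| ≤ ((S.filter fun s => h (s - p) = 0).card : ℤ) - 1 ∧
      ∀ α β γ : ℝ,
        2 ≤ ((S.filter fun s => h (s - p) = 0).filter fun s =>
          α * A1 (s - p) + β * A2 (s - p) + γ = 0).card →
        B < |∑ s ∈ S, sg (h (s - p)) +
          ∑ s ∈ S.filter (fun s => h (s - p) = 0), sg (α * A1 (s - p) + β * A2 (s - p) + γ)| := by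
  classical
  have hw : q - p ≠ 0 := sub_ne_zero.2 hpq.symm
  obtain ⟨κ, g, e, hκw, hgw, hew, hker, hind⟩ := exists_frame (q - p) hw
  -- `S` is not contained in the line
  have hne : ∃ s ∈ S, g (s - p) ≠ 0 ∨ e (s - p) ≠ 0 := by
    by_contra hcon
    push Not at hcon
    have hg0 : g ≠ 0 := by
      rintro rfl
      have h1 := hind 1 0 (by
        intro y
        rw [LinearMap.zero_apply]
        ring)
      exact one_ne_zero h1.1
    have h1 : ∀ s ∈ S, g s + -(g p) = 0 := by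
      intro s hs
      have h2 := (hcon s hs).1
      rw [map_sub] at h2
      linarith
    have h3 := hbad g (-(g p)) hg0 (by
      have h4 : ({p, q} : Finset (Fin 3 → ℝ)) ⊆ S.filter fun s => g s + -(g p) = 0 := by
        intro x hx
        rw [Finset.mem_insert, Finset.mem_singleton] at hx
        rcases hx with rfl | rfl
        · exact Finset.mem_filter.2 ⟨hp, h1 _ hp⟩
        · exact Finset.mem_filter.2 ⟨hq, h1 _ hq⟩
      have h5 := Finset.card_le_card h4
      rwa [Finset.card_pair hpq] at h5)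
    rw [Finset.sum_congr rfl (fun s hs => by rw [h1 s hs, sg_zero] : ∀ s ∈ S,
      sg (g s + -(g p)) = 0), Finset.sum_const_zero, abs_zero] at h3
    omega
  obtain ⟨g1, ⟨a0, b0, ha0, hg1⟩, σ, a, ha, hga, hha, hval⟩ := rot3 S p g e hne
  let h : (Fin 3 → ℝ) →ₗ[ℝ] ℝ := σ • g1 - e
  have hh : ∀ y, h y = σ * g1 y - e y := fun y => rfl
  have hg1w : g1 (q - p) = 0 := by rw [hg1, hgw, hew]; ring
  have hhw : h (q - p) = 0 := by rw [hh, hg1w, hew]; ring
  have hha' : h (a - p) = 0 := by rw [hh]; exact hha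
  have hne0 : h ≠ 0 := by
    intro h0
    have h1 := hind (σ * a0) (σ * b0 - 1) (by
      intro y
      have h2 : h y = 0 := by rw [h0]; rfl
      rw [hh, hg1] at h2
      linear_combination h2)
    obtain ⟨h2, h3⟩ := h1
    have h4 : σ = 0 := (mul_eq_zero.1 h2).resolve_right ha0
    rw [h4] at h3
    norm_num at h3
  let A2 : (Fin 3 → ℝ) →ₗ[ℝ] ℝ := (g1 (a - p))⁻¹ • g1
  let A1 : (Fin 3 → ℝ) →ₗ[ℝ] ℝ := κ - κ (a - p) • A2
  have hA2 : ∀ y, A2 y = (g1 (a - p))⁻¹ * g1 y := fun y => rfl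
  have hA1 : ∀ y, A1 y = κ y - κ (a - p) * A2 y := fun y => rfl
  have hA2a : A2 (a - p) = 1 := by rw [hA2]; exact inv_mul_cancel₀ hga
  have hA2w : A2 (q - p) = 0 := by rw [hA2, hg1w, mul_zero]
  have hA1a : A1 (a - p) = 0 := by rw [hA1, hA2a]; ring
  have hA1w : A1 (q - p) = 1 := by rw [hA1, hA2w, hκw]; ring
  -- coordinates on the plane
  have hcoord : ∀ y, h y = 0 → y = A1 y • (q - p) + A2 y • (a - p) := by
    intro y hy
    have h1 : g1 (y - A2 y • (a - p)) = 0 := by
      rw [map_sub, map_smul, smul_eq_mul, hA2]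
      field_simp
      ring
    have h2 : h (y - A2 y • (a - p)) = 0 := by
      rw [map_sub, map_smul, hha', smul_zero, sub_zero, hy]
    have h3 : e (y - A2 y • (a - p)) = 0 := by
      rw [hh, h1] at h2
      linarith
    have h4 : g (y - A2 y • (a - p)) = 0 := by
      rw [hg1, h3] at h1
      have h5 : a0 * g (y - A2 y • (a - p)) = 0 := by linarith
      exact (mul_eq_zero.1 h5).resolve_left ha0
    have h5 := hker _ h4 h3
    have h6 : κ (y - A2 y • (a - p)) = A1 y := by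
      rw [map_sub, map_smul, smul_eq_mul, hA1]
      ring
    rw [h6] at h5
    rw [← h5]
    abel
  set T := S.filter fun s => h (s - p) = 0 with hT
  have hpT : p ∈ T := by
    rw [hT, Finset.mem_filter, sub_self, map_zero]
    exact ⟨hp, rfl⟩
  refine ⟨h, A1, A2, a, hne0, hhw, ha, hha', hA1w, hA2w, hA1a, hA2a, hcoord, ?_, ?_⟩
  · change _ ≤ (T.card : ℤ) - 1
    have e1 : ∑ s ∈ S, sg (h (s - p)) = ∑ s ∈ S, sg (σ * g1 (s - p) - e (s - p)) := rfl
    rw [e1]
    refine hval.trans ?_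
    have e2 : (S.filter fun s => σ * g1 (s - p) - e (s - p) = 0 ∧ g1 (s - p) ≠ 0) ⊆ T.erase p := by
      intro s hs
      rw [Finset.mem_filter] at hs
      refine Finset.mem_erase.2 ⟨?_, Finset.mem_filter.2 ⟨hs.1, hs.2.1⟩⟩
      rintro rfl
      apply hs.2.2
      rw [sub_self, map_zero]
    have e3 := Finset.card_le_card e2
    rw [Finset.card_erase_of_mem hpT] at e3
    have e4 : 0 < T.card := Finset.card_pos.2 ⟨p, hpT⟩
    omega
  · intro α β γ h1'
    rw [← hT] at h1' ⊢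
    obtain ⟨ε, hε, hε1⟩ := tilt S (fun s => h (s - p))
      (fun s => α * A1 (s - p) + β * A2 (s - p) + γ)
    let l : (Fin 3 → ℝ) →ₗ[ℝ] ℝ := h + ε • (α • A1 + β • A2)
    have hl : ∀ y, l y = h y + ε * (α * A1 y + β * A2 y) := fun y => rfl
    have hlc : ∀ s, l s + (-(l p) + ε * γ) =
        h (s - p) + ε * (α * A1 (s - p) + β * A2 (s - p) + γ) := by
      intro s
      have h3 := hl (s - p)
      rw [map_sub] at h3
      linear_combination h3
    have hl0 : l ≠ 0 := by
      intro h0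
      have e1 : l (q - p) = 0 := by rw [h0]; rfl
      have e2 : l (a - p) = 0 := by rw [h0]; rfl
      rw [hl, hhw, hA1w, hA2w] at e1
      rw [hl, hha', hA1a, hA2a] at e2
      have e3 : α = 0 := by
        have : ε * α = 0 := by linear_combination e1
        exact (mul_eq_zero.1 this).resolve_left hε.ne'
      have e4 : β = 0 := by
        have : ε * β = 0 := by linear_combination e2
        exact (mul_eq_zero.1 this).resolve_left hε.ne'
      apply hne0
      refine LinearMap.ext fun y => ?_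
      have e5 : l y = 0 := by rw [h0]; rfl
      rw [hl, e3, e4] at e5
      rw [LinearMap.zero_apply]
      linear_combination e5
    have h3 := hbad l (-(l p) + ε * γ) hl0 (by
      refine h1'.trans (Finset.card_le_card fun s hs => ?_)
      rw [Finset.mem_filter, hT, Finset.mem_filter] at hs
      refine Finset.mem_filter.2 ⟨hs.1.1, ?_⟩
      rw [hlc, hs.1.2, hs.2]
      ring)
    have h4 : ∑ s ∈ S, sg (l s + (-(l p) + ε * γ)) = ∑ s ∈ S, sg (h (s - p)) +
        ∑ s ∈ T, sg (α * A1 (s - p) + β * A2 (s - p) + γ) := by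
      rw [hT, Finset.sum_filter, ← Finset.sum_add_distrib]
      refine Finset.sum_congr rfl fun s hs => ?_
      rw [hlc]
      by_cases h0 : h (s - p) = 0
      · rw [if_pos h0, h0, zero_add, sg_zero, zero_add, mul_comm, sg_mul_pos hε]
      · rw [if_neg h0, add_zero]
        exact hε1 ε hε le_rfl s hs h0
    rw [h4] at h3
    exact h3

end Pool.Agent.MP_9673d9_co.Rich
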