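import Pool.Agent.MP_9673d9_co.Rich.Ev

/-!
# Positions

`T` is a finite subset of the plane.  In the direction `φ` the points of `T` are sorted by `ev φ`.
The class of `y` (the points with the same value) covers the positions
`below T φ y, ..., T.card - 1 - above T φ y`.
-/

set_option autoImplicit false

open Finset

namespace Pool.Agent.MP_9673d9_co.Rich

/-- number of points of `T` with smaller value than `y` -/
noncomputable def below (T : Finset (ℝ × ℝ)) (φ : ℝ) (y : ℝ × ℝ) : ℕ :=
  (T.filter fun p => ev φ p < ev φ y).card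

/-- number of points of `T` with larger value than `y` -/
noncomputable def above (T : Finset (ℝ × ℝ)) (φ : ℝ) (y : ℝ × ℝ) : ℕ :=
  (T.filter fun p => ev φ y < ev φ p).card

/-- number of points of `T` with the same value as `y` -/
noncomputable def same (T : Finset (ℝ × ℝ)) (φ : ℝ) (y : ℝ × ℝ) : ℕ :=
  (T.filter fun p => ev φ p = ev φ y).card

/-- the class of `y` covers the position `i` -/
def Cov (T : Finset (ℝ × ℝ)) (i : ℕ) (φ : ℝ) (y : ℝ × ℝ) : Prop :=
  y ∈ T ∧ below T φ y ≤ i ∧ i + above T φ y < T.card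

/-- the class covering the position `i` has at least two members -/
def Ev (T : Finset (ℝ × ℝ)) (i : ℕ) (φ : ℝ) : Prop := ∃ y, Cov T i φ y ∧ 2 ≤ same T φ y

theorem count_add (T : Finset (ℝ × ℝ)) (φ : ℝ) (y : ℝ × ℝ) :
    below T φ y + same T φ y + above T φ y = T.card := by
  classical
  unfold below same above
  have h1 := Finset.card_filter_add_card_filter_not (s := T) (fun p => ev φ p < ev φ y)
  have h2 := Finset.card_filter_add_card_filter_not (s := T.filter fun p => ¬ ev φ p < ev φ y)
    (fun p => ev φ p = ev φ y)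
  have e1 : ((T.filter fun p => ¬ ev φ p < ev φ y).filter fun p => ev φ p = ev φ y) =
      T.filter fun p => ev φ p = ev φ y := by
    rw [Finset.filter_filter]
    refine Finset.filter_congr fun p _ => ?_
    constructor
    · exact fun h => h.2
    · exact fun h => ⟨by rw [h]; exact lt_irrefl _, h⟩
  have e2 : ((T.filter fun p => ¬ ev φ p < ev φ y).filter fun p => ¬ ev φ p = ev φ y) =
      T.filter fun p => ev φ y < ev φ p := by
    rw [Finset.filter_filter]
    refine Finset.filter_congr fun p _ => ?_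
    constructor
    · rintro ⟨h3, h4⟩
      exact lt_of_le_of_ne (not_lt.1 h3) (Ne.symm h4)
    · exact fun h => ⟨not_lt.2 h.le, h.ne'⟩
  rw [e1, e2] at h2
  omega

theorem same_pos {T : Finset (ℝ × ℝ)} (φ : ℝ) {y : ℝ × ℝ} (hy : y ∈ T) : 1 ≤ same T φ y :=
  Finset.card_pos.2 ⟨y, Finset.mem_filter.2 ⟨hy, rfl⟩⟩

theorem below_congr {T : Finset (ℝ × ℝ)} {φ : ℝ} {y y' : ℝ × ℝ} (h : ev φ y = ev φ y') :
    below T φ y = below T φ y' := by
  unfold below
  rw [h]

theorem above_congr {T : Finset (ℝ × ℝ)} {φ : ℝ} {y y' : ℝ × ℝ} (h : ev φ y = ev φ y') :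
    above T φ y = above T φ y' := by
  unfold above
  rw [h]

theorem same_congr {T : Finset (ℝ × ℝ)} {φ : ℝ} {y y' : ℝ × ℝ} (h : ev φ y = ev φ y') :
    same T φ y = same T φ y' := by
  unfold same
  rw [h]

theorem above_add_pi (T : Finset (ℝ × ℝ)) (φ : ℝ) (y : ℝ × ℝ) :
    above T (φ + Real.pi) y = below T φ y := by
  unfold above below
  congr 1
  refine Finset.filter_congr fun p _ => ?_
  rw [ev_add_pi, ev_add_pi, neg_lt_neg_iff]

theorem below_add_pi (T : Finset (ℝ × ℝ)) (φ : ℝ) (y : ℝ × ℝ) :
    below T (φ + Real.pi) y = above T φ y := by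
  unfold above below
  congr 1
  refine Finset.filter_congr fun p _ => ?_
  rw [ev_add_pi, ev_add_pi, neg_lt_neg_iff]

theorem same_add_pi (T : Finset (ℝ × ℝ)) (φ : ℝ) (y : ℝ × ℝ) :
    same T (φ + Real.pi) y = same T φ y := by
  unfold same
  congr 1
  refine Finset.filter_congr fun p _ => ?_
  rw [ev_add_pi, ev_add_pi, neg_inj]

/-- points with smaller value than `y'`, if `y` has smaller value -/
theorem below_add_same_le {T : Finset (ℝ × ℝ)} {φ : ℝ} {y y' : ℝ × ℝ} (h : ev φ y < ev φ y') :
    below T φ y + same T φ y ≤ below T φ y' := by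
  classical
  unfold below same
  rw [← Finset.card_union_of_disjoint]
  · refine Finset.card_le_card fun p hp => ?_
    rw [Finset.mem_union, Finset.mem_filter, Finset.mem_filter] at hp
    rw [Finset.mem_filter]
    rcases hp with hp | hp
    · exact ⟨hp.1, hp.2.trans h⟩
    · exact ⟨hp.1, by rw [hp.2]; exact h⟩
  · rw [Finset.disjoint_left]
    intro p hp hp'
    rw [Finset.mem_filter] at hp hp'
    exact absurd hp'.2 hp.2.ne

/-- the class covering a position is unique -/
theorem Cov.ev_eq {T : Finset (ℝ × ℝ)} {i : ℕ} {φ : ℝ} {y y' : ℝ × ℝ} (h : Cov T i φ y)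
    (h' : Cov T i φ y') : ev φ y = ev φ y' := by
  obtain ⟨h1, h2, h3⟩ := h
  obtain ⟨h1', h2', h3'⟩ := h'
  have a := count_add T φ y
  have a' := count_add T φ y'
  rcases lt_trichotomy (ev φ y) (ev φ y') with h4 | h4 | h4
  · have := below_add_same_le (T := T) h4
    omega
  · exact h4
  · have := below_add_same_le (T := T) h4
    omega

theorem Cov.congr {T : Finset (ℝ × ℝ)} {i : ℕ} {φ : ℝ} {y y' : ℝ × ℝ} (h : Cov T i φ y)
    (hy' : y' ∈ T) (he : ev φ y = ev φ y') : Cov T i φ y' :=
  ⟨hy', by rw [← below_congr he]; exact h.2.1, by rw [← above_congr he]; exact h.2.2⟩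

theorem Ev.same_ge {T : Finset (ℝ × ℝ)} {i : ℕ} {φ : ℝ} {y : ℝ × ℝ} (h : Ev T i φ)
    (hy : Cov T i φ y) : 2 ≤ same T φ y := by
  obtain ⟨z, hz, h2⟩ := h
  rwa [same_congr (hy.ev_eq hz)]

/-- every position is covered -/
theorem exists_cov {T : Finset (ℝ × ℝ)} {i : ℕ} (hi : i < T.card) (φ : ℝ) : ∃ y, Cov T i φ y := by
  classical
  -- the members with `i < below + same`
  have hne : T.Nonempty := by
    rw [← Finset.card_pos]
    omega
  obtain ⟨m, hm, hmax⟩ := Finset.exists_max_image T (fun p => ev φ p) hne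
  have hM : (T.filter fun p => i < below T φ p + same T φ p).Nonempty := by
    refine ⟨m, Finset.mem_filter.2 ⟨hm, ?_⟩⟩
    have h1 : above T φ m = 0 := by
      unfold above
      rw [Finset.card_eq_zero, Finset.filter_eq_empty_iff]
      intro p hp
      exact not_lt.2 (hmax p hp)
    have h2 := count_add T φ m
    omega
  obtain ⟨y, hy, hmin⟩ := Finset.exists_min_image _ (fun p => ev φ p) hM
  rw [Finset.mem_filter] at hy
  refine ⟨y, hy.1, ?_, ?_⟩
  · by_contra hcon
    push Not at hcon
    -- the largest member below `y`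
    have hB : (T.filter fun p => ev φ p < ev φ y).Nonempty := by
      rw [← Finset.card_pos]
      change 0 < below T φ y
      omega
    obtain ⟨z, hz, hzmax⟩ := Finset.exists_max_image _ (fun p => ev φ p) hB
    rw [Finset.mem_filter] at hz
    have h3 : below T φ y ≤ below T φ z + same T φ z := by
      unfold below same
      rw [← Finset.card_union_of_disjoint]
      · refine Finset.card_le_card fun p hp => ?_
        have hp' := Finset.mem_filter.1 hp
        rw [Finset.mem_union, Finset.mem_filter, Finset.mem_filter]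
        rcases lt_or_eq_of_le (hzmax p hp) with h4 | h4
        · exact Or.inl ⟨hp'.1, h4⟩
        · exact Or.inr ⟨hp'.1, h4⟩
      · rw [Finset.disjoint_left]
        intro p hp hp'
        rw [Finset.mem_filter] at hp hp'
        exact absurd hp'.2 hp.2.ne
    have h4 := hmin z (Finset.mem_filter.2 ⟨hz.1, by omega⟩)
    exact absurd hz.2 (not_lt.2 h4)
  · have h2 := count_add T φ y
    have h5 := hy.2
    omega

end Pool.Agent.MP_9673d9_co.Rich
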