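import Pool.Agent.MP_9673d9_co.Rich.Gap
import Pool.Agent.MP_9673d9_co.Rich.Between
import Pool.Agent.MP_9673d9_co.Rich.Types

set_option autoImplicit false

open Finset

namespace Pool.Agent.MP_9673d9_co.Rich

/-- the class of a left event in the window also covers the previous position -/
theorem down_cov {T : Finset (ℝ × ℝ)} {d D : ℤ} {i : ℕ} {φ : ℝ} (h : LL T d D (i + 1) φ)
    (hf : d + (T.card : ℤ) - 1 - 2 * ((i : ℤ) + 1) < D) :
    ∃ y, Cov T (i + 1) φ y ∧ Cov T i φ y := by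
  obtain ⟨y, h1, h2, h3⟩ := h
  have h1' := h1
  obtain ⟨h0, h4, h5⟩ := h1
  exact ⟨y, h1', h0, by omega, by omega⟩

/-- Doubling.  Let `θ < θ' < θ + π` be consecutive events at position `i`, both centred to the left.  Then at
position `i - j` there are at least `2 ^ j + 1` events in `[θ, θ']`, all centred to the left.
Proof: induction on `j`, for all `i`, `θ`, `θ'`.  `j = 0`: `E = {θ, θ'}`.  Step `j + 1`: `LL.pos` gives
`i = k + 1`; by `LL.down`, `LL T d D k θ` and `LL T d D k θ'`; `between` (positions `i` and `k`, with the classes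
covering both, which exist by the computation in `LL.down`) gives an event at position `k` in `(θ, θ')`; let
`φ₁`, `φ₂` be the first and the last one (`exists_first`, `exists_last`), `φ₁ ≤ φ₂`.  Both are `LL` at position
`k` by `LL_of_new` (no event at `k + 1 = i` in `(θ, θ')`).  The induction hypothesis for `(k, θ, φ₁)` and
`(k, φ₂, θ')` gives `E₁`, `E₂`; `E₁ ∩ E₂ ⊆ {φ₁}`, so `(E₁ ∪ E₂).card ≥ 2 * (2 ^ j + 1) - 1 = 2 ^ (j + 1) + 1`.
(For the two hypotheses on the window: `2 * k = 2 * i - 2`.) -/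
theorem down {T : Finset (ℝ × ℝ)} {d D : ℤ} (hB : Bad T d D) (j : ℕ) : ∀ (i : ℕ) (θ θ' : ℝ),
    θ < θ' → θ' < θ + Real.pi → i < T.card → LL T d D i θ → LL T d D i θ' →
    (∀ φ, θ < φ → φ < θ' → ¬ Ev T i φ) →
    d + (T.card : ℤ) - 1 - 2 * (i : ℤ) + 2 * (j : ℤ) < D →
    -D < d + (T.card : ℤ) - 1 - 2 * (i : ℤ) →
    ∃ E : Finset ℝ, 2 ^ j + 1 ≤ E.card ∧ (∀ φ ∈ E, θ ≤ φ ∧ φ ≤ θ') ∧
      ∀ φ ∈ E, ∃ k : ℕ, (k : ℤ) = i - j ∧ LL T d D k φ := by
  induction j with
  | zero =>
    intro i θ θ' h1 h2 hi hL hL' hno hf1 hf2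
    refine ⟨{θ, θ'}, ?_, ?_, ?_⟩
    · rw [Finset.card_pair h1.ne]
      norm_num
    · intro φ hφ
      simp only [Finset.mem_insert, Finset.mem_singleton] at hφ
      rcases hφ with rfl | rfl
      · exact ⟨le_rfl, h1.le⟩
      · exact ⟨h1.le, le_rfl⟩
    · intro φ hφ
      simp only [Finset.mem_insert, Finset.mem_singleton] at hφ
      rcases hφ with rfl | rfl
      · exact ⟨i, by simp, hL⟩
      · exact ⟨i, by simp, hL'⟩
  | succ j ih =>
    intro i θ θ' h1 h2 hi hL hL' hno hf1 hf2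
    push_cast at hf1
    have hpos := hL.pos (by omega)
    obtain ⟨k, rfl⟩ : ∃ k, i = k + 1 := ⟨i - 1, by omega⟩
    push_cast at hf1 hf2
    have hk : k < T.card := by omega
    have hd1 : LL T d D k θ := hL.down (by omega)
    have hd2 : LL T d D k θ' := hL'.down (by omega)
    obtain ⟨z, hz, hz2⟩ := down_cov hL (by omega)
    obtain ⟨z', hz', hz2'⟩ := down_cov hL' (by omega)
    have hex := between (Nat.succ_ne_self k) hi hk h1 h2 hz hz2 hz' hz2' hno
    obtain ⟨φ₁, a1, a2, a3, a4⟩ := exists_first h2.le hex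
    obtain ⟨φ₂, b1, b2, b3, b4⟩ := exists_last h2.le hex
    have hle : φ₁ ≤ φ₂ := by
      by_contra hcon
      exact a4 φ₂ b1 (not_le.1 hcon) b3
    have hLa : LL T d D k φ₁ := LL_of_new hB a3 (hno φ₁ a1 a2) (by omega)
    have hLb : LL T d D k φ₂ := LL_of_new hB b3 (hno φ₂ b1 b2) (by omega)
    obtain ⟨E₁, c1, c2, c3⟩ := ih k θ φ₁ a1 (by linarith) hk hd1 hLa a4 (by omega) (by omega)
    obtain ⟨E₂, d1, d2, d3⟩ := ih k φ₂ θ' b2 (by linarith) hk hLb hd2 b4 (by omega) (by omega)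
    refine ⟨E₁ ∪ E₂, ?_, ?_, ?_⟩
    · have hint : (E₁ ∩ E₂).card ≤ 1 := by
        rw [Finset.card_le_one]
        have key : ∀ a ∈ E₁ ∩ E₂, a = φ₁ := by
          intro a ha
          obtain ⟨ha1, ha2⟩ := Finset.mem_inter.1 ha
          have e1 := (c2 a ha1).2
          have e2 := (d2 a ha2).1
          linarith
        intro a ha b hb
        rw [key a ha, key b hb]
      have hun := Finset.card_union_add_card_inter E₁ E₂
      rw [pow_succ]
      omega
    · intro φ hφ
      rcases Finset.mem_union.1 hφ with h3 | h3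
      · have := c2 φ h3
        exact ⟨this.1, by linarith [this.2]⟩
      · have := d2 φ h3
        exact ⟨by linarith [this.1], this.2⟩
    · intro φ hφ
      rcases Finset.mem_union.1 hφ with h3 | h3
      · obtain ⟨k', e1, e2⟩ := c3 φ h3
        exact ⟨k', by push_cast; omega, e2⟩
      · obtain ⟨k', e1, e2⟩ := d3 φ h3
        exact ⟨k', by push_cast; omega, e2⟩

end Pool.Agent.MP_9673d9_co.Rich
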