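import Mathlib

/-!
# Directions in the plane

`ev φ p` is the value at the point `p` of the linear functional with direction `(cos φ, sin φ)`.
-/

set_option autoImplicit false

open Finset

namespace Pool.Agent.MP_9673d9_co.Rich

/-- value at `p` of the functional with direction `(cos φ, sin φ)` -/
noncomputable def ev (φ : ℝ) (p : ℝ × ℝ) : ℝ := Real.cos φ * p.1 + Real.sin φ * p.2

theorem ev_add_pi (φ : ℝ) (p : ℝ × ℝ) : ev (φ + Real.pi) p = - ev φ p := by
  unfold ev
  rw [Real.cos_add_pi, Real.sin_add_pi]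
  ring

theorem ev_continuous (p : ℝ × ℝ) : Continuous fun φ => ev φ p := by
  unfold ev
  fun_prop

/-- two different points have the same value for at most one direction in a half-turn -/
theorem ev_inj {φ φ' : ℝ} (h1 : φ < φ') (h2 : φ' < φ + Real.pi) {p q : ℝ × ℝ}
    (e1 : ev φ p = ev φ q) (e2 : ev φ' p = ev φ' q) : p = q := by
  have hs : 0 < Real.sin (φ' - φ) := Real.sin_pos_of_pos_of_lt_pi (by linarith) (by linarith)
  rw [Real.sin_sub] at hs
  unfold ev at e1 e2
  have a1 : (Real.sin φ' * Real.cos φ - Real.cos φ' * Real.sin φ) * (p.1 - q.1) = 0 := by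
    linear_combination Real.sin φ' * e1 - Real.sin φ * e2
  have a2 : (Real.sin φ' * Real.cos φ - Real.cos φ' * Real.sin φ) * (p.2 - q.2) = 0 := by
    linear_combination -Real.cos φ' * e1 + Real.cos φ * e2
  ext
  · exact sub_eq_zero.1 ((mul_eq_zero.1 a1).resolve_left hs.ne')
  · exact sub_eq_zero.1 ((mul_eq_zero.1 a2).resolve_left hs.ne')

/-- two points with different values have the same value somewhere in the next half-turn -/
theorem ev_cross (θ : ℝ) {p q : ℝ × ℝ} (h : ev θ p ≠ ev θ q) :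
    ∃ φ, θ < φ ∧ φ < θ + Real.pi ∧ ev φ p = ev φ q := by
  have hc : ContinuousOn (fun φ => ev φ p - ev φ q) (Set.Icc θ (θ + Real.pi)) :=
    ((ev_continuous p).sub (ev_continuous q)).continuousOn
  have hle : θ ≤ θ + Real.pi := by linarith [Real.pi_pos]
  have e1 : ev (θ + Real.pi) p - ev (θ + Real.pi) q = -(ev θ p - ev θ q) := by
    rw [ev_add_pi, ev_add_pi]
    ring
  rcases lt_or_gt_of_ne h with h1 | h1
  · have h0 : (0 : ℝ) ∈ Set.Ioo (ev θ p - ev θ q) (ev (θ + Real.pi) p - ev (θ + Real.pi) q) := by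
      rw [e1]
      constructor <;> linarith
    obtain ⟨φ, hφ, h2⟩ := intermediate_value_Ioo hle hc h0
    exact ⟨φ, hφ.1, hφ.2, sub_eq_zero.1 h2⟩
  · have h0 : (0 : ℝ) ∈ Set.Ioo (ev (θ + Real.pi) p - ev (θ + Real.pi) q) (ev θ p - ev θ q) := by
      rw [e1]
      constructor <;> linarith
    obtain ⟨φ, hφ, h2⟩ := intermediate_value_Ioo' hle hc h0
    exact ⟨φ, hφ.1, hφ.2, sub_eq_zero.1 h2⟩

/-- a strict inequality persists for nearby directions -/
theorem ev_near {φ : ℝ} {p q : ℝ × ℝ} (h : ev φ p < ev φ q) : ∀ᶠ ψ in nhds φ, ev ψ p < ev ψ q :=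
  (ev_continuous p).continuousAt.eventually_lt (ev_continuous q).continuousAt h

end Pool.Agent.MP_9673d9_co.Rich
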