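import Pool.Agent.MP_9673d9_co.Rich.Count

set_option autoImplicit false

open Finset

namespace Pool.Agent.MP_9673d9_co.Rich

/-- in a singleton class equal values mean equal points -/
theorem label_eq {T : Finset (ℝ × ℝ)} {φ : ℝ} {y p : ℝ × ℝ} (h1 : same T φ y = 1) (hy : y ∈ T)
    (hp : p ∈ T) (h : ev φ p = ev φ y) : p = y := by
  unfold same at h1
  obtain ⟨z, hz⟩ := Finset.card_eq_one.1 h1
  have hy' : y ∈ T.filter fun p => ev φ p = ev φ y := Finset.mem_filter.2 ⟨hy, rfl⟩
  have hp' : p ∈ T.filter fun p => ev φ p = ev φ y := Finset.mem_filter.2 ⟨hp, h⟩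
  rw [hz, Finset.mem_singleton] at hy' hp'
  rw [hp', hy']

/-- Local constancy of the label.  If the class of `y` covers the position `i` in direction `φ₀` and is a
singleton, then the same holds for all directions near `φ₀`.
Proof: `same T φ₀ y = 1` says that every `p ∈ T`, `p ≠ y` has `ev φ₀ p ≠ ev φ₀ y`; these finitely many
strict inequalities persist near `φ₀` (`ev_near`, `Finset.eventually_all` or `Filter.eventually_all_finset`),
so the filters defining `below`, `above`, `same` are the same sets at `ψ` as at `φ₀`. -/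
theorem label_near {T : Finset (ℝ × ℝ)} {i : ℕ} {φ₀ : ℝ} {y : ℝ × ℝ} (h : Cov T i φ₀ y)
    (h1 : same T φ₀ y = 1) : ∀ᶠ ψ in nhds φ₀, Cov T i ψ y ∧ same T ψ y = 1 := by
  have hcmp : ∀ p ∈ T, ∀ᶠ ψ in nhds φ₀, (ev ψ p < ev ψ y ↔ ev φ₀ p < ev φ₀ y) ∧
      (ev ψ y < ev ψ p ↔ ev φ₀ y < ev φ₀ p) ∧ (ev ψ p = ev ψ y ↔ ev φ₀ p = ev φ₀ y) := by
    intro p hp
    by_cases hpy : p = y
    · subst hpy
      refine Filter.Eventually.of_forall fun ψ => ?_
      simp
    · rcases lt_trichotomy (ev φ₀ p) (ev φ₀ y) with h2 | h2 | h2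
      · filter_upwards [ev_near h2] with ψ hψ
        refine ⟨⟨fun _ => h2, fun _ => hψ⟩, ⟨fun h3 => absurd h3 (not_lt.2 hψ.le),
          fun h3 => absurd h3 (not_lt.2 h2.le)⟩, ⟨fun h3 => absurd h3 hψ.ne, fun h3 => absurd h3 h2.ne⟩⟩
      · exact absurd (label_eq h1 h.1 hp h2) hpy
      · filter_upwards [ev_near h2] with ψ hψ
        refine ⟨⟨fun h3 => absurd h3 (not_lt.2 hψ.le), fun h3 => absurd h3 (not_lt.2 h2.le)⟩,
          ⟨fun _ => h2, fun _ => hψ⟩, ⟨fun h3 => absurd h3 hψ.ne', fun h3 => absurd h3 h2.ne'⟩⟩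
  have hall := (Filter.eventually_all_finset T).2 hcmp
  filter_upwards [hall] with ψ hψ
  have e1 : below T ψ y = below T φ₀ y := by
    unfold below
    rw [Finset.filter_congr fun p hp => (hψ p hp).1]
  have e2 : above T ψ y = above T φ₀ y := by
    unfold above
    rw [Finset.filter_congr fun p hp => (hψ p hp).2.1]
  have e3 : same T ψ y = same T φ₀ y := by
    unfold same
    rw [Finset.filter_congr fun p hp => (hψ p hp).2.2]
  exact ⟨⟨h.1, by rw [e1]; exact h.2.1, by rw [e2]; exact h.2.2⟩, by rw [e3]; exact h1⟩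

/-- One-sided limits.  If the class of `y` covers position `i` for directions arbitrarily close to `α`, it
covers position `i` at `α`.
Proof: the finitely many strict inequalities `ev α p < ev α y` (for `p` counted in `below T α y`) and
`ev α y < ev α p` persist near `α`, so `below T α y ≤ below T ψ y` and `above T α y ≤ above T ψ y` for all `ψ`
near `α`; take such a `ψ` with `Cov T i ψ y` (`Filter.Frequently.and_eventually`, `.exists`). -/
theorem cov_limit {T : Finset (ℝ × ℝ)} {i : ℕ} {α : ℝ} {y : ℝ × ℝ}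
    (h : ∃ᶠ ψ in nhds α, Cov T i ψ y) : Cov T i α y := by
  have h1 : ∀ p ∈ T, ∀ᶠ ψ in nhds α, (ev α p < ev α y → ev ψ p < ev ψ y) ∧
      (ev α y < ev α p → ev ψ y < ev ψ p) := by
    intro p _
    rcases lt_trichotomy (ev α p) (ev α y) with h2 | h2 | h2
    · filter_upwards [ev_near h2] with ψ hψ
      exact ⟨fun _ => hψ, fun h3 => absurd h3 (not_lt.2 h2.le)⟩
    · refine Filter.Eventually.of_forall fun ψ => ?_
      exact ⟨fun h3 => absurd h2 h3.ne, fun h3 => absurd h2 h3.ne'⟩
    · filter_upwards [ev_near h2] with ψ hψ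
      exact ⟨fun h3 => absurd h3 (not_lt.2 h2.le), fun _ => hψ⟩
  have hall := (Filter.eventually_all_finset T).2 h1
  obtain ⟨ψ, hψ1, hψ2⟩ := (h.and_eventually hall).exists
  refine ⟨hψ1.1, ?_, ?_⟩
  · refine le_trans ?_ hψ1.2.1
    unfold below
    refine Finset.card_le_card fun p hp => ?_
    rw [Finset.mem_filter] at hp ⊢
    exact ⟨hp.1, (hψ2 p hp.1).1 hp.2⟩
  · refine lt_of_le_of_lt ?_ hψ1.2.2
    apply Nat.add_le_add_left
    unfold above
    refine Finset.card_le_card fun p hp => ?_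
    rw [Finset.mem_filter] at hp ⊢
    exact ⟨hp.1, (hψ2 p hp.1).2 hp.2⟩

/-- In an open interval without event at the position `i` there is a constant label `y`, and its class still
covers the position `i` at the two end points.
Proof: for `φ` in the interval choose `y φ` with `Cov T i φ (y φ)` (`exists_cov`); `¬ Ev T i φ` and
`same_pos` give `same T φ (y φ) = 1`.  By `label_near` and `Cov.ev_eq` (a singleton class: equal values mean
equal points) `y` is locally constant on `Set.Ioo α β`, which is preconnected, so it is constant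
(e.g. `IsPreconnected.constant`, or `IsLocallyConstant.apply_eq_of_preconnectedSpace` on the subtype with
`Subtype.preconnectedSpace isPreconnected_Ioo`).  End points: `cov_limit`. -/
theorem label {T : Finset (ℝ × ℝ)} {i : ℕ} (hi : i < T.card) {α β : ℝ} (hαβ : α < β)
    (hno : ∀ φ, α < φ → φ < β → ¬ Ev T i φ) :
    ∃ y, (∀ φ, α < φ → φ < β → Cov T i φ y ∧ same T φ y = 1) ∧ Cov T i α y ∧ Cov T i β y := by
  choose Y hY using fun φ => exists_cov hi φ
  have hsame : ∀ φ, α < φ → φ < β → same T φ (Y φ) = 1 := by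
    intro φ h1 h2
    have h3 := same_pos φ (hY φ).1
    have h4 : ¬ 2 ≤ same T φ (Y φ) := fun h5 => hno φ h1 h2 ⟨Y φ, hY φ, h5⟩
    omega
  have hloc : ∀ φ, α < φ → φ < β → ∀ᶠ ψ in nhds φ, Y ψ = Y φ := by
    intro φ h1 h2
    filter_upwards [label_near (hY φ) (hsame φ h1 h2)] with ψ hψ
    exact label_eq hψ.2 hψ.1.1 (hY ψ).1 ((hY ψ).ev_eq hψ.1)
  have hlc : IsLocallyConstant (fun φ : Set.Ioo α β => Y φ) := by
    rw [IsLocallyConstant.iff_eventually_eq]
    intro φ
    exact continuous_subtype_val.continuousAt.eventually (hloc φ φ.2.1 φ.2.2)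
  have hpre : PreconnectedSpace (Set.Ioo α β) := Subtype.preconnectedSpace isPreconnected_Ioo
  have hm : (α + β) / 2 ∈ Set.Ioo α β := ⟨by linarith, by linarith⟩
  have hconst : ∀ φ, α < φ → φ < β → Y φ = Y ((α + β) / 2) := by
    intro φ h1 h2
    exact hlc.apply_eq_of_preconnectedSpace ⟨φ, h1, h2⟩ ⟨_, hm⟩
  have hcov : ∀ φ, α < φ → φ < β → Cov T i φ (Y ((α + β) / 2)) := by
    intro φ h1 h2
    rw [← hconst φ h1 h2]
    exact hY φ
  refine ⟨Y ((α + β) / 2), ?_, ?_, ?_⟩
  · intro φ h1 h2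
    refine ⟨hcov φ h1 h2, ?_⟩
    rw [← hconst φ h1 h2]
    exact hsame φ h1 h2
  · apply cov_limit
    have h1 : ∀ᶠ ψ in nhdsWithin α (Set.Ioi α), Cov T i ψ (Y ((α + β) / 2)) := by
      filter_upwards [Ioo_mem_nhdsGT hαβ] with ψ hψ
      exact hcov ψ hψ.1 hψ.2
    exact h1.frequently.filter_mono nhdsWithin_le_nhds
  · apply cov_limit
    have h1 : ∀ᶠ ψ in nhdsWithin β (Set.Iio β), Cov T i ψ (Y ((α + β) / 2)) := by
      filter_upwards [Ioo_mem_nhdsLT hαβ] with ψ hψ
      exact hcov ψ hψ.1 hψ.2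
    exact h1.frequently.filter_mono nhdsWithin_le_nhds

end Pool.Agent.MP_9673d9_co.Rich
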