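import Pool.Agent.MP_9673d9_co.Rich.Rich0

set_option autoImplicit false

open Finset

namespace Pool.Agent.MP_9673d9_co.Rich

theorem lines_mem {h A1 A2 : (Fin 3 → ℝ) →ₗ[ℝ] ℝ} {p P Q x : Fin 3 → ℝ} {φ c : ℝ}
    (hP : h (P - p) = 0 ∧ ev φ (A1 (P - p), A2 (P - p)) = c)
    (hQ : h (Q - p) = 0 ∧ ev φ (A1 (Q - p), A2 (Q - p)) = c)
    (hx : x ∈ affineSpan ℝ ({P, Q} : Set (Fin 3 → ℝ))) :
    h (x - p) = 0 ∧ ev φ (A1 (x - p), A2 (x - p)) = c := by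
  obtain ⟨r, rfl⟩ := mem_affineSpan_pair_iff_exists_lineMap_eq.1 hx
  have e : AffineMap.lineMap P Q r - p = (1 - r) • (P - p) + r • (Q - p) := by
    rw [AffineMap.lineMap_apply_module]
    module
  rw [e]
  obtain ⟨h1, h2⟩ := hP
  obtain ⟨h3, h4⟩ := hQ
  unfold ev at h2 h4 ⊢
  simp only [map_add, map_smul, smul_eq_mul] at h2 h4 ⊢
  refine ⟨by rw [h1, h3]; ring, ?_⟩
  linear_combination (1 - r) * h2 + r * h4

theorem lines_coord {h A1 A2 : (Fin 3 → ℝ) →ₗ[ℝ] ℝ} {p q a P Q s : Fin 3 → ℝ} {φ c : ℝ}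
    (hdec : ∀ y, h y = 0 → y = A1 y • (q - p) + A2 y • (a - p))
    (hP : h (P - p) = 0 ∧ ev φ (A1 (P - p), A2 (P - p)) = c)
    (hQ : h (Q - p) = 0 ∧ ev φ (A1 (Q - p), A2 (Q - p)) = c) (hPQ : P ≠ Q)
    (hs : h (s - p) = 0 ∧ ev φ (A1 (s - p), A2 (s - p)) = c) :
    s ∈ affineSpan ℝ ({P, Q} : Set (Fin 3 → ℝ)) := by
  obtain ⟨h1, h2⟩ := hP
  obtain ⟨h3, h4⟩ := hQ
  obtain ⟨h5, h6⟩ := hs
  have ev' : h (Q - P) = 0 := by
    rw [← sub_sub_sub_cancel_right Q P p, map_sub, h1, h3, sub_zero]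
  have es' : h (s - P) = 0 := by
    rw [← sub_sub_sub_cancel_right s P p, map_sub, h1, h5, sub_zero]
  have hv := hdec _ ev'
  have hw := hdec _ es'
  have c1 : Real.cos φ * A1 (Q - P) + Real.sin φ * A2 (Q - P) = 0 := by
    unfold ev at h2 h4
    simp only [map_sub] at h2 h4 ⊢
    linarith
  have c2 : Real.cos φ * A1 (s - P) + Real.sin φ * A2 (s - P) = 0 := by
    unfold ev at h2 h6
    simp only [map_sub] at h2 h6 ⊢
    linarith
  have hne : ¬ (A1 (Q - P) = 0 ∧ A2 (Q - P) = 0) := by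
    rintro ⟨k1, k2⟩
    rw [k1, k2, zero_smul, zero_smul, add_zero] at hv
    exact hPQ (sub_eq_zero.1 hv).symm
  generalize A1 (Q - P) = u1 at *
  generalize A2 (Q - P) = u2 at *
  generalize A1 (s - P) = w1 at *
  generalize A2 (s - P) = w2 at *
  have hsq := Real.cos_sq_add_sin_sq φ
  have hdet : u1 * w2 - u2 * w1 = 0 := by
    linear_combination (Real.cos φ * w2 - Real.sin φ * w1) * c1 -
      (Real.cos φ * u2 - Real.sin φ * u1) * c2 - (u1 * w2 - u2 * w1) * hsq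
  have hpos : u1 ^ 2 + u2 ^ 2 ≠ 0 := by
    intro h0
    apply hne
    constructor <;> nlinarith [sq_nonneg u1, sq_nonneg u2]
  have e1 : w1 = (u1 * w1 + u2 * w2) / (u1 ^ 2 + u2 ^ 2) * u1 := by
    field_simp
    linear_combination (-u2) * hdet
  have e2 : w2 = (u1 * w1 + u2 * w2) / (u1 ^ 2 + u2 ^ 2) * u2 := by
    field_simp
    linear_combination u1 * hdet
  refine mem_affineSpan_pair_iff_exists_lineMap_eq.2 ⟨(u1 * w1 + u2 * w2) / (u1 ^ 2 + u2 ^ 2), ?_⟩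
  generalize (u1 * w1 + u2 * w2) / (u1 ^ 2 + u2 ^ 2) = t at *
  have e : s - P = t • (Q - P) := by
    rw [hw, hv, e1, e2]
    module
  rw [AffineMap.lineMap_apply_module', ← e]
  abel

/-- The rich plane, with the lines as affine subspaces.
Proof: `rich0`.  The plane is `l = h`, `c = -(h p)`.  For `φ ∈ E` the set
`S_φ = S.filter (h (s - p) = 0 ∧ ev φ (A1 (s-p), A2 (s-p)) = c φ)` has two different members `P φ ≠ Q φ`
(`Finset.one_lt_card`); let `ℓ φ = line[ℝ, P φ, Q φ]` (`AffineSubspace`, `affineSpan ℝ {P φ, Q φ}`).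
* `finrank ℝ (ℓ φ).direction = 1`: `direction_affineSpan`, `vectorSpan_pair` / `finrank_span_singleton`.
* every `x ∈ ℓ φ` has `h x = h p`: `x = AffineMap.lineMap (P φ) (Q φ) t`, linearity.
* `S_φ ⊆ ℓ φ`: for `s ∈ S_φ` the vectors `s - P`, `Q - P` lie in the plane `h = 0`, and their coordinates
  `(A1, A2)` are both orthogonal to `(cos φ, sin φ)`, with `Q - P ≠ 0`, so `s - P = t • (Q - P)`:
  if `u = (u₁, u₂) ≠ 0` and `w` satisfy `cos φ u₁ + sin φ u₂ = 0 = cos φ w₁ + sin φ w₂`, then `u₁ w₂ = u₂ w₁`, so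
  `w = t u` with `t = (u₁ w₁ + u₂ w₂) / (u₁² + u₂²)`; use the coordinate formula for `y = s - P`, `Q - P`.
* `ℓ` is injective on `E`: if `ℓ φ = ℓ φ'`, `φ < φ'`, then all points `x` of `ℓ φ` satisfy
  `ev φ (A1 (x - p), A2 (x - p)) = c φ` and `ev φ' (..) = c φ'` (affine functions, constant on two different points
  of the line), in particular for `P φ` and `Q φ`, so `ev_inj` gives equal coordinates, hence `P φ = Q φ`.
`𝓛 = E.image ℓ`. -/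
theorem rich_lines (S : Finset (Fin 3 → ℝ)) (B : ℤ) (j : ℕ) (hj : 2 * (j : ℤ) + 3 ≤ B)
    (hbad : ∀ (l : (Fin 3 → ℝ) →ₗ[ℝ] ℝ) (c : ℝ), l ≠ 0 →
      2 ≤ (S.filter fun s => l s + c = 0).card → B < |∑ s ∈ S, sg (l s + c)|)
    (p q : Fin 3 → ℝ) (hp : p ∈ S) (hq : q ∈ S) (hpq : p ≠ q) :
    ∃ (l : (Fin 3 → ℝ) →ₗ[ℝ] ℝ) (c : ℝ), l ≠ 0 ∧ l p + c = 0 ∧ l q + c = 0 ∧
      ∃ 𝓛 : Finset (AffineSubspace ℝ (Fin 3 → ℝ)), 2 ^ j + 1 ≤ 𝓛.card ∧
        ∀ ℓ ∈ 𝓛, Module.finrank ℝ ℓ.direction = 1 ∧ (∀ x ∈ ℓ, l x + c = 0) ∧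
          B - 1 - 2 * (j : ℤ) ≤ (((S : Set (Fin 3 → ℝ)) ∩ (ℓ : Set (Fin 3 → ℝ))).ncard : ℤ) := by
  classical
  obtain ⟨h, A1, A2, a, θ₀, E, c, hh0, hqp, hap, -, -, -, -, hdec, hcard, hθ, hE⟩ :=
    rich0 S B j hj hbad p q hp hq hpq
  have hex : ∀ φ ∈ E, ∃ P Q : Fin 3 → ℝ, P ≠ Q ∧
      (h (P - p) = 0 ∧ ev φ (A1 (P - p), A2 (P - p)) = c φ) ∧
      (h (Q - p) = 0 ∧ ev φ (A1 (Q - p), A2 (Q - p)) = c φ) := by
    intro φ hφ
    obtain ⟨P, hP, Q, hQ, hPQ⟩ := Finset.one_lt_card.1 (hE φ hφ).1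
    exact ⟨P, Q, hPQ, (Finset.mem_filter.1 hP).2, (Finset.mem_filter.1 hQ).2⟩
  choose! P Q hPQ hP hQ using hex
  have hinj : ∀ φ ∈ E, ∀ φ' ∈ E, φ < φ' →
      affineSpan ℝ ({P φ, Q φ} : Set (Fin 3 → ℝ)) ≠ affineSpan ℝ {P φ', Q φ'} := by
    intro φ hφ φ' hφ' hlt heq
    have m1 : P φ ∈ affineSpan ℝ ({P φ', Q φ'} : Set (Fin 3 → ℝ)) := by
      rw [← heq]; exact left_mem_affineSpan_pair ℝ _ _
    have m2 : Q φ ∈ affineSpan ℝ ({P φ', Q φ'} : Set (Fin 3 → ℝ)) := by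
      rw [← heq]; exact right_mem_affineSpan_pair ℝ _ _
    have k1 := (lines_mem (hP φ' hφ') (hQ φ' hφ') m1).2
    have k2 := (lines_mem (hP φ' hφ') (hQ φ' hφ') m2).2
    have k3 := (hP φ hφ).2
    have k4 := (hQ φ hφ).2
    have k5 := ev_inj hlt (by linarith [(hθ φ hφ).1, (hθ φ' hφ').2]) (k3.trans k4.symm)
      (k1.trans k2.symm)
    rw [Prod.mk.injEq] at k5
    have d1 := hdec _ (hP φ hφ).1
    have d2 := hdec _ (hQ φ hφ).1
    rw [k5.1, k5.2, ← d2] at d1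
    exact hPQ φ hφ (sub_left_injective d1)
  refine ⟨h, -(h p), hh0, by ring, ?_, E.image (fun φ => affineSpan ℝ ({P φ, Q φ} : Set (Fin 3 → ℝ))),
    ?_, ?_⟩
  · rw [map_sub] at hqp
    linarith
  · rw [Finset.card_image_of_injOn]
    · exact hcard
    · intro φ hφ φ' hφ' heq
      rcases lt_trichotomy φ φ' with hlt | hlt | hlt
      · exact absurd heq (hinj φ hφ φ' hφ' hlt)
      · exact hlt
      · exact absurd heq.symm (hinj φ' hφ' φ hφ hlt)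
  · intro ℓ hℓ
    obtain ⟨φ, hφ, rfl⟩ := Finset.mem_image.1 hℓ
    refine ⟨?_, ?_, ?_⟩
    · rw [direction_affineSpan, vectorSpan_pair]
      exact finrank_span_singleton (by rw [vsub_eq_sub]; exact sub_ne_zero.2 (hPQ φ hφ))
    · intro x hx
      have := (lines_mem (hP φ hφ) (hQ φ hφ) hx).1
      rw [map_sub] at this
      linarith
    · refine (hE φ hφ).2.trans ?_
      rw [← Set.ncard_coe_finset]
      refine Nat.cast_le.2 (Set.ncard_le_ncard ?_ ((Finset.finite_toSet S).subset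
        Set.inter_subset_left))
      intro s hs
      rw [Finset.mem_coe, Finset.mem_filter] at hs
      exact ⟨hs.1, lines_coord hdec (hP φ hφ) (hQ φ hφ) (hPQ φ hφ) hs.2⟩

end Pool.Agent.MP_9673d9_co.Rich
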