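import Mathlib

set_option autoImplicit false

open Finset

namespace Pool.Agent.MP_9673d9_co.Rich

theorem pairs_dir {ℓ : AffineSubspace ℝ (Fin 3 → ℝ)} (h : Module.finrank ℝ ℓ.direction = 1)
    {x y : Fin 3 → ℝ} (hx : x ∈ ℓ) (hy : y ∈ ℓ) (hxy : x ≠ y) :
    ℓ.direction = Submodule.span ℝ {y - x} := by
  have hle : Submodule.span ℝ {y - x} ≤ ℓ.direction := by
    rw [Submodule.span_le, Set.singleton_subset_iff]
    exact AffineSubspace.vsub_mem_direction hy hx
  have hne : y - x ≠ 0 := sub_ne_zero.2 hxy.symm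
  exact (Submodule.eq_of_le_of_finrank_eq hle (by rw [finrank_span_singleton hne, h])).symm

theorem pairs_mono {r m : ℕ} (h : r ≤ m) : r * (r - 1) ≤ m * m - m := by
  have e : m * m - m = m * (m - 1) := by
    rw [Nat.mul_sub, mul_one]
  rw [e]
  exact Nat.mul_le_mul h (Nat.sub_le_sub_right h 1)

/-- Counting pairs: `𝓛` is a finite set of lines, each containing at least `r` points of the finite set `S`.
Proof: the ordered pairs `(x, y)`, `x ≠ y`, of points of `S ∩ ℓ` (`Finset.offDiag`, at least `r (r - 1)` of them) are,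
for different `ℓ`, disjoint subsets of `S.offDiag` (two different points lie on only one line: a line `ℓ` through
`x ≠ y` with `finrank ℓ.direction = 1` is `line[ℝ, x, y]`, e.g. because `line[ℝ, x, y] ≤ ℓ` and the directions have the
same finrank: `AffineSubspace.eq_of_direction_eq_of_nonempty_of_le`, `Submodule.eq_of_le_of_finrank_eq`).
`Finset.card_biUnion`, `Finset.offDiag_card`. -/
theorem card_lines (S : Finset (Fin 3 → ℝ)) (𝓛 : Finset (AffineSubspace ℝ (Fin 3 → ℝ))) (r : ℕ)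
    (h1 : ∀ ℓ ∈ 𝓛, Module.finrank ℝ ℓ.direction = 1)
    (h2 : ∀ ℓ ∈ 𝓛, r ≤ ((S : Set (Fin 3 → ℝ)) ∩ (ℓ : Set (Fin 3 → ℝ))).ncard) :
    𝓛.card * (r * (r - 1)) ≤ S.card * (S.card - 1) := by
  classical
  have hdisj : (𝓛 : Set (AffineSubspace ℝ (Fin 3 → ℝ))).PairwiseDisjoint
      (fun ℓ => (S.filter (fun p => p ∈ ℓ)).offDiag) := by
    intro ℓ hℓ ℓ' hℓ' hne
    rw [Function.onFun, Finset.disjoint_left]
    rintro ⟨x, y⟩ h3 h4
    rw [Finset.mem_offDiag, Finset.mem_filter, Finset.mem_filter] at h3 h4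
    apply hne
    have d1 := pairs_dir (h1 ℓ hℓ) h3.1.2 h3.2.1.2 h3.2.2
    have d2 := pairs_dir (h1 ℓ' hℓ') h4.1.2 h4.2.1.2 h4.2.2
    exact AffineSubspace.ext_of_direction_eq (d1.trans d2.symm) ⟨x, h3.1.2, h4.1.2⟩
  have hge : ∀ ℓ ∈ 𝓛, r * (r - 1) ≤ ((S.filter (fun p => p ∈ ℓ)).offDiag).card := by
    intro ℓ hℓ
    rw [Finset.offDiag_card]
    apply pairs_mono
    refine (h2 ℓ hℓ).trans ?_
    have e : ((S : Set (Fin 3 → ℝ)) ∩ (ℓ : Set (Fin 3 → ℝ))) =
        ((S.filter (fun p => p ∈ ℓ) : Finset (Fin 3 → ℝ)) : Set (Fin 3 → ℝ)) := by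
      ext p
      simp
    rw [e, Set.ncard_coe_finset]
  calc 𝓛.card * (r * (r - 1)) = ∑ _ℓ ∈ 𝓛, r * (r - 1) := by
        rw [Finset.sum_const, smul_eq_mul]
    _ ≤ ∑ ℓ ∈ 𝓛, ((S.filter (fun p => p ∈ ℓ)).offDiag).card := Finset.sum_le_sum hge
    _ = (𝓛.biUnion (fun ℓ => (S.filter (fun p => p ∈ ℓ)).offDiag)).card :=
        (Finset.card_biUnion hdisj).symm
    _ ≤ S.offDiag.card := by
        apply Finset.card_le_card
        intro p hp
        rw [Finset.mem_biUnion] at hp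
        obtain ⟨ℓ, -, hp⟩ := hp
        rw [Finset.mem_offDiag, Finset.mem_filter, Finset.mem_filter] at hp
        rw [Finset.mem_offDiag]
        exact ⟨hp.1.1, hp.2.1.1, hp.2.2⟩
    _ = S.card * (S.card - 1) := by
        rw [Finset.offDiag_card, Nat.mul_sub, mul_one]

end Pool.Agent.MP_9673d9_co.Rich
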