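import Pool.Agent.MP_9673d9_co.Rich.Down
import Pool.Agent.MP_9673d9_co.Rich.Start

set_option autoImplicit false

open Finset

namespace Pool.Agent.MP_9673d9_co.Rich

/-- The planar theorem.  `T` is not on a line, `|d| ≤ |T| - 1`, every line through at least two points of `T` has
`|d + above - below| ≥ D`, and `2 j + 4 ≤ D`.  Then at least `2 ^ j + 1` directions in a half-turn have a line
with at least `D - 2 j - 2` points (and at least two points) of `T`.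
Proof: `start`.  First alternative: `down` with `j`, position `i` (`f = d + T.card - 1 - 2 i ∈ [0, 3]`, so
`f + 2 j ≤ 2 j + 3 < D`); the elements of `E` satisfy `LL T d D k φ` with `k = i - j`, and `LL.size` gives
`same ≥ D + 1 - (f + 2 j) ≥ D - 2 j - 2`.  Second alternative: apply `down` to `-d` (`Bad.refl`), the position
`T.card - 1 - i`, and the directions `θ + π`, `θ' + π` (`RR.refl`; no events in between by `Ev.refl` applied to
`φ - π`); now `f' = -d + T.card - 1 - 2 (T.card - 1 - i) = -f ∈ [-1, 0]`; `LL.size` with `-d` again.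
`θ₀` is `θ`, resp. `θ + π`. -/
theorem planar_rich {T : Finset (ℝ × ℝ)} (hT : NC T) {d D : ℤ} (hB : Bad T d D) {j : ℕ}
    (hj : 2 * (j : ℤ) + 4 ≤ D) (hd : |d| ≤ (T.card : ℤ) - 1) :
    ∃ (θ₀ : ℝ) (E : Finset ℝ), 2 ^ j + 1 ≤ E.card ∧ (∀ φ ∈ E, θ₀ ≤ φ ∧ φ < θ₀ + Real.pi) ∧
      ∀ φ ∈ E, ∃ y ∈ T, 2 ≤ same T φ y ∧ D - 2 * (j : ℤ) - 2 ≤ (same T φ y : ℤ) := by
  rcases start hT hB (by omega) hd with ⟨i, hi, hf0, hf3, θ, θ', h1, h2, hL, hL', hno⟩ |
    ⟨i, hi, hf0, hf1, θ, θ', h1, h2, hR, hR', hno⟩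
  · obtain ⟨E, hE, hE1, hE2⟩ := down hB j i θ θ' h1 h2 hi hL hL' hno (by omega) (by omega)
    refine ⟨θ, E, hE, fun φ hφ => ⟨(hE1 φ hφ).1, lt_of_le_of_lt (hE1 φ hφ).2 h2⟩, fun φ hφ => ?_⟩
    obtain ⟨k, hk, hLk⟩ := hE2 φ hφ
    obtain ⟨y, hy, hy2, hy3⟩ := hLk.size
    exact ⟨y, hy, hy2, by omega⟩
  · have hc : ((T.card - 1 - i : ℕ) : ℤ) = (T.card : ℤ) - 1 - i := by omega
    have hno' : ∀ φ, θ + Real.pi < φ → φ < θ' + Real.pi → ¬ Ev T (T.card - 1 - i) φ := by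
      intro φ hφ1 hφ2 hev
      refine hno (φ - Real.pi) (by linarith) (by linarith) (Ev.refl hi ?_)
      rw [sub_add_cancel]
      exact hev
    obtain ⟨E, hE, hE1, hE2⟩ := down hB.refl j (T.card - 1 - i) (θ + Real.pi) (θ' + Real.pi)
      (by linarith) (by linarith) (by omega) hR.refl hR'.refl hno' (by rw [hc]; omega)
      (by rw [hc]; omega)
    refine ⟨θ + Real.pi, E, hE, fun φ hφ => ⟨(hE1 φ hφ).1, lt_of_le_of_lt (hE1 φ hφ).2
      (by linarith)⟩, fun φ hφ => ?_⟩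
    obtain ⟨k, hk, hLk⟩ := hE2 φ hφ
    obtain ⟨y, hy, hy2, hy3⟩ := hLk.size
    rw [hc] at hk
    exact ⟨y, hy, hy2, by omega⟩

end Pool.Agent.MP_9673d9_co.Rich
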