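import Pool.Agent.MP_9673d9_co.Rich.Reduce
import Pool.Agent.MP_9673d9_co.Rich.Planar

set_option autoImplicit false

open Finset

namespace Pool.Agent.MP_9673d9_co.Rich

/-- If all planes through two points of `S` have imbalance larger than `B`, then through any two points `p`, `q` of
`S` there is a plane `{s | h (s - p) = 0}` with coordinates `(A1 (s - p), A2 (s - p))` and at least `2 ^ j + 1`
directions `φ` in a half-turn such that the line `{ev φ = c φ}` of this plane has at least `B - 1 - 2 j` (and at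
least two) points of `S`.
Proof: `reduce` gives `h, A1, A2, a`.  Let `T` be the image of `S.filter (h (s - p) = 0)` under
`s ↦ (A1 (s - p), A2 (s - p))`; this map is injective there, because `s - p = A1 (s-p) • (q-p) + A2 (s-p) • (a-p)`.
`NC T`: the points `p, q, a` give `(0, 0), (1, 0), (0, 1)`; if `ev φ` were constant on them then
`cos φ = sin φ = 0`.  `Bad T d (B + 1)` with `d = ∑ s ∈ S, sg (h (s - p))`: for `φ` and `y ∈ T` use the last property
with `α = cos φ`, `β = sin φ`, `γ = - ev φ y`; the sum of the signs is `above - below` (`sum_sg`, `Finset.sum_image`,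
`Finset.filter_image`, `Finset.card_image_of_injOn`).  Then `planar_rich` with `D = B + 1`;
`c φ = ev φ y` for the `y` it gives (`choose!`). -/
theorem rich0 (S : Finset (Fin 3 → ℝ)) (B : ℤ) (j : ℕ) (hj : 2 * (j : ℤ) + 3 ≤ B)
    (hbad : ∀ (l : (Fin 3 → ℝ) →ₗ[ℝ] ℝ) (c : ℝ), l ≠ 0 →
      2 ≤ (S.filter fun s => l s + c = 0).card → B < |∑ s ∈ S, sg (l s + c)|)
    (p q : Fin 3 → ℝ) (hp : p ∈ S) (hq : q ∈ S) (hpq : p ≠ q) :
    ∃ (h A1 A2 : (Fin 3 → ℝ) →ₗ[ℝ] ℝ) (a : Fin 3 → ℝ) (θ₀ : ℝ) (E : Finset ℝ) (c : ℝ → ℝ),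
      h ≠ 0 ∧ h (q - p) = 0 ∧ h (a - p) = 0 ∧ A1 (q - p) = 1 ∧ A2 (q - p) = 0 ∧
      A1 (a - p) = 0 ∧ A2 (a - p) = 1 ∧
      (∀ y, h y = 0 → y = A1 y • (q - p) + A2 y • (a - p)) ∧
      2 ^ j + 1 ≤ E.card ∧ (∀ φ ∈ E, θ₀ ≤ φ ∧ φ < θ₀ + Real.pi) ∧
      ∀ φ ∈ E,
        2 ≤ (S.filter fun s => h (s - p) = 0 ∧ ev φ (A1 (s - p), A2 (s - p)) = c φ).card ∧
        B - 1 - 2 * (j : ℤ) ≤
          ((S.filter fun s => h (s - p) = 0 ∧ ev φ (A1 (s - p), A2 (s - p)) = c φ).card : ℤ) := by
  classical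
  have hB0 : 0 ≤ B := by
    have : (0 : ℤ) ≤ (j : ℤ) := Int.natCast_nonneg j
    omega
  obtain ⟨h, A1, A2, a, hh0, hhq, haS, hha, h1q, h2q, h1a, h2a, hcoord, hval, htilt⟩ :=
    reduce S B hB0 hbad p q hp hq hpq
  set S' := S.filter fun s => h (s - p) = 0 with hS'
  set F : (Fin 3 → ℝ) → ℝ × ℝ := fun s => (A1 (s - p), A2 (s - p)) with hF
  have hinj : Set.InjOn F S' := by
    intro s hs t ht hst
    rw [Finset.mem_coe, hS', Finset.mem_filter] at hs ht
    have e1 := hcoord _ hs.2
    have e2 := hcoord _ ht.2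
    have e3 : A1 (s - p) = A1 (t - p) := congrArg Prod.fst hst
    have e4 : A2 (s - p) = A2 (t - p) := congrArg Prod.snd hst
    rw [e3, e4, ← e2] at e1
    exact sub_left_injective e1
  set T := S'.image F with hT
  have hcount : ∀ P : ℝ × ℝ → Prop, (T.filter P).card = (S'.filter fun s => P (F s)).card := by
    intro P
    rw [hT, Finset.filter_image, Finset.card_image_of_injOn]
    exact hinj.mono (by
      intro x hx
      exact (Finset.mem_filter.1 hx).1)
  have hTcard : T.card = S'.card := by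
    rw [hT, Finset.card_image_of_injOn hinj]
  have hpS' : p ∈ S' := by
    rw [hS', Finset.mem_filter]
    exact ⟨hp, by rw [sub_self, map_zero]⟩
  have hqS' : q ∈ S' := by
    rw [hS', Finset.mem_filter]
    exact ⟨hq, hhq⟩
  have haS' : a ∈ S' := by
    rw [hS', Finset.mem_filter]
    exact ⟨haS, hha⟩
  have hFp : F p = (0, 0) := by
    rw [hF]
    simp
  have hFq : F q = (1, 0) := by
    rw [hF]
    simp only [h1q, h2q]
  have hFa : F a = (0, 1) := by
    rw [hF]
    simp only [h1a, h2a]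
  have hNC : NC T := by
    intro φ c
    by_contra hcon
    push Not at hcon
    have e1 := hcon (F p) (Finset.mem_image_of_mem _ hpS')
    have e2 := hcon (F q) (Finset.mem_image_of_mem _ hqS')
    have e3 := hcon (F a) (Finset.mem_image_of_mem _ haS')
    rw [hFp] at e1
    rw [hFq] at e2
    rw [hFa] at e3
    unfold ev at e1 e2 e3
    simp only [mul_zero, mul_one, add_zero, zero_add] at e1 e2 e3
    have e4 := Real.sin_sq_add_cos_sq φ
    rw [e2, e3, ← e1] at e4
    norm_num at e4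
  have hBad : Bad T (∑ s ∈ S, sg (h (s - p))) (B + 1) := by
    intro φ y hy h2
    have e0 : ∀ s, Real.cos φ * A1 (s - p) + Real.sin φ * A2 (s - p) + -(ev φ y) = ev φ (F s) - ev φ y := by
      intro s
      rfl
    have e1 := htilt (Real.cos φ) (Real.sin φ) (-(ev φ y)) (by
      unfold same at h2
      rw [hcount] at h2
      refine h2.trans (le_of_eq ?_)
      congr 1
      refine Finset.filter_congr fun s _ => ?_
      rw [e0, sub_eq_zero])
    rw [Finset.sum_congr rfl (fun s _ => by rw [e0 s] : ∀ s ∈ S',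
      sg (Real.cos φ * A1 (s - p) + Real.sin φ * A2 (s - p) + -(ev φ y)) = sg (ev φ (F s) - ev φ y)),
      sum_sg S'] at e1
    have e2 : (above T φ y) = (S'.filter fun s => 0 < ev φ (F s) - ev φ y).card := by
      unfold above
      rw [hcount]
      congr 1
      exact Finset.filter_congr fun s _ => by rw [sub_pos]
    have e3 : (below T φ y) = (S'.filter fun s => ev φ (F s) - ev φ y < 0).card := by
      unfold below
      rw [hcount]
      congr 1
      exact Finset.filter_congr fun s _ => by rw [sub_neg]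
    rw [← e2, ← e3, ← add_sub_assoc] at e1
    omega
  obtain ⟨θ₀, E, hE, hEθ, hEy⟩ := planar_rich hNC hBad (j := j) (by omega) (by
    rw [hTcard]
    exact hval)
  choose! y hyT hy2 hyB using hEy
  refine ⟨h, A1, A2, a, θ₀, E, fun φ => ev φ (y φ), hh0, hhq, hha, h1q, h2q, h1a, h2a, hcoord, hE, hEθ, ?_⟩
  intro φ hφ
  have e1 : (S.filter fun s => h (s - p) = 0 ∧ ev φ (A1 (s - p), A2 (s - p)) = ev φ (y φ)).card =
      same T φ (y φ) := by
    unfold same
    rw [hcount, hS', Finset.filter_filter]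
  have e2 := hy2 φ hφ
  have e3 := hyB φ hφ
  rw [e1]
  exact ⟨e2, by omega⟩

end Pool.Agent.MP_9673d9_co.Rich
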