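import Pool.Agent.MP_9673d9_co.Poly
import Pool.Agent.MP_9673d9_co.Rich.Ev

set_option autoImplicit false

open Finset

namespace Pool.Agent.MP_9673d9_co.Rich

/-- the functional `ev φ` -/
noncomputable def vanish_evL (φ : ℝ) : ℝ × ℝ →ₗ[ℝ] ℝ :=
  Real.cos φ • LinearMap.fst ℝ ℝ ℝ + Real.sin φ • LinearMap.snd ℝ ℝ ℝ

theorem vanish_evL_apply (φ : ℝ) (x : ℝ × ℝ) : vanish_evL φ x = ev φ x := by
  simp [vanish_evL, ev]

theorem vanish_dir (φ : ℝ) : ev φ (-Real.sin φ, Real.cos φ) = 0 := by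
  unfold ev
  ring

theorem vanish_sin {θ₀ φ φ' : ℝ} (h1 : θ₀ ≤ φ ∧ φ < θ₀ + Real.pi)
    (h2 : θ₀ ≤ φ' ∧ φ' < θ₀ + Real.pi) (hne : φ ≠ φ') :
    ev φ (-Real.sin φ', Real.cos φ') ≠ 0 := by
  have e : ev φ (-Real.sin φ', Real.cos φ') = Real.sin (φ - φ') := by
    unfold ev
    rw [Real.sin_sub]
    ring
  rw [e]
  rcases lt_or_gt_of_ne hne with h | h
  · have h3 : Real.sin (φ - φ') < 0 :=
      Real.sin_neg_of_neg_of_neg_pi_lt (by linarith) (by linarith [h1.1, h2.2])
    exact h3.ne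
  · exact (Real.sin_pos_of_pos_of_lt_pi (by linarith) (by linarith [h1.2, h2.1])).ne'

/-- A polynomial function of degree at most `k` in the plane which vanishes on `k + 1` pairwise non-parallel lines
is zero.
Proof: induction on `k`, for all `P` and `E`.  Let `φ₁ ∈ E`.  With `l : ℝ × ℝ →ₗ[ℝ] ℝ` the functional `ev φ₁`
(`l x = cos φ₁ * x.1 + sin φ₁ * x.2`), `w = (cos φ₁, sin φ₁)` (`l w = 1`) and `c = -(c φ₁)`, `PF.div'` gives
`P x = (l x + c) * G x` with `PF (k - 1) G`, and `G = 0` if `k = 0`.  If `k = 0` then `P = 0`.  If `k = k' + 1`: `G` vanishes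
on every other line of `E.erase φ₁`: let `φ ∈ E`, `φ ≠ φ₁`, `ev φ x = c φ`.  The line is `{x + s • w'}`,
`w' = (-sin φ, cos φ)`, and `l w' = sin (φ₁ - φ)`-like is `≠ 0`, because `0 < |φ₁ - φ| < π`; so `l (·) + c` has at most
one zero on the line.  If `y₀` is this zero (`s₀ = -(l x + c)/ l w'`), write the line as `y₀ + s • w'`: `G` vanishes for
`s ≠ 0` and `PF.vanish` gives that it vanishes on the whole line.  Induction hypothesis for `G` and `E.erase φ₁`. -/
theorem planar_vanish (k : ℕ) : ∀ (P : ℝ × ℝ → ℝ), PF k P → ∀ (E : Finset ℝ) (c : ℝ → ℝ) (θ₀ : ℝ),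
    k + 1 ≤ E.card → (∀ φ ∈ E, θ₀ ≤ φ ∧ φ < θ₀ + Real.pi) →
    (∀ φ ∈ E, ∀ x, ev φ x = c φ → P x = 0) → ∀ x, P x = 0 := by
  induction k with
  | zero =>
    intro P hP E c θ₀ hE hθ h0 x
    obtain ⟨φ₁, hφ₁⟩ : E.Nonempty := Finset.card_pos.1 (by omega)
    obtain ⟨G, -, hG0, hG1⟩ := hP.div' (vanish_evL φ₁) (-(c φ₁)) (Real.cos φ₁, Real.sin φ₁)
      (by rw [vanish_evL_apply]; unfold ev; nlinarith [Real.cos_sq_add_sin_sq φ₁])
      (fun x hx => h0 φ₁ hφ₁ x (by rw [vanish_evL_apply] at hx; linarith))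
    rw [hG1 x, hG0 rfl x, mul_zero]
  | succ k ih =>
    intro P hP E c θ₀ hE hθ h0 x
    obtain ⟨φ₁, hφ₁⟩ : E.Nonempty := Finset.card_pos.1 (by omega)
    obtain ⟨G, hG, -, hG1⟩ := hP.div' (vanish_evL φ₁) (-(c φ₁)) (Real.cos φ₁, Real.sin φ₁)
      (by rw [vanish_evL_apply]; unfold ev; nlinarith [Real.cos_sq_add_sin_sq φ₁])
      (fun x hx => h0 φ₁ hφ₁ x (by rw [vanish_evL_apply] at hx; linarith))
    rw [Nat.add_sub_cancel] at hG
    have hGv := ih G hG (E.erase φ₁) c θ₀ (by rw [Finset.card_erase_of_mem hφ₁]; omega)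
      (fun φ hφ => hθ φ (Finset.mem_of_mem_erase hφ)) ?_
    · rw [hG1 x, hGv x, mul_zero]
    · intro φ hφ x hx
      have hφE := Finset.mem_of_mem_erase hφ
      have hne := Finset.ne_of_mem_erase hφ
      have hlw := vanish_sin (hθ φ₁ hφ₁) (hθ φ hφE) hne.symm
      set w' : ℝ × ℝ := (-Real.sin φ, Real.cos φ) with hw'
      have hlw' : vanish_evL φ₁ w' ≠ 0 := by rw [vanish_evL_apply]; exact hlw
      have hzero : vanish_evL φ w' = 0 := by rw [vanish_evL_apply]; exact vanish_dir φ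
      set s₀ : ℝ := -(vanish_evL φ₁ x + -(c φ₁)) / vanish_evL φ₁ w' with hs₀
      have hs₀' : s₀ * vanish_evL φ₁ w' = -(vanish_evL φ₁ x + -(c φ₁)) := by
        rw [hs₀, div_mul_cancel₀ _ hlw']
      have hv := hG.vanish (x + s₀ • w') w' (fun s hs => by
        have hP0 : P (x + s₀ • w' + s • w') = 0 := by
          apply h0 φ hφE
          rw [← vanish_evL_apply, map_add, map_add, map_smul, map_smul, hzero, smul_zero,
            smul_zero, add_zero, add_zero, vanish_evL_apply]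
          exact hx
        rw [hG1] at hP0
        rcases mul_eq_zero.1 hP0 with h3 | h3
        · exfalso
          rw [map_add, map_add, map_smul, map_smul, smul_eq_mul, smul_eq_mul] at h3
          have h4 : s * vanish_evL φ₁ w' = 0 := by linarith
          rcases mul_eq_zero.1 h4 with h5 | h5
          · exact hs h5
          · exact hlw' h5
        · exact h3) (-s₀)
      have e : x + s₀ • w' + -s₀ • w' = x := by
        rw [add_assoc, ← add_smul, add_neg_cancel, zero_smul, add_zero]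
      rwa [e] at hv

/-- A polynomial function of degree at most `k` in the plane with `k + 1` zeros on the line `ev φ = c` vanishes on
this line.
Proof: let `ev φ x = c` and suppose `P x ≠ 0`.  Every point `t` of the line is `x + s • (-sin φ, cos φ)` with
`s = -sin φ * (t.1 - x.1) + cos φ * (t.2 - x.2)` (use `cos² + sin² = 1`).  `PF.card_zeros` with `y = x`,
`w = (-sin φ, cos φ)` and the image of `Z` under `t ↦ s` (injective on the line) gives `Z.card ≤ k`. -/
theorem line_vanish {k : ℕ} {P : ℝ × ℝ → ℝ} (hP : PF k P) (φ c : ℝ) (Z : Finset (ℝ × ℝ))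
    (hZ : k + 1 ≤ Z.card) (h0 : ∀ t ∈ Z, ev φ t = c ∧ P t = 0) (x : ℝ × ℝ) (hx : ev φ x = c) :
    P x = 0 := by
  by_contra hne
  set w : ℝ × ℝ := (-Real.sin φ, Real.cos φ) with hw
  set f : ℝ × ℝ → ℝ := fun t => -Real.sin φ * (t.1 - x.1) + Real.cos φ * (t.2 - x.2) with hf
  have hsq := Real.cos_sq_add_sin_sq φ
  have key : ∀ t : ℝ × ℝ, ev φ t = c → t = x + f t • w := by
    intro t ht
    have h1 : Real.cos φ * (t.1 - x.1) + Real.sin φ * (t.2 - x.2) = 0 := by
      unfold ev at ht hx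
      linarith
    ext
    · simp only [hf, hw, Prod.fst_add, Prod.smul_fst, smul_eq_mul]
      linear_combination (Real.cos φ) * h1 - (t.1 - x.1) * hsq
    · simp only [hf, hw, Prod.snd_add, Prod.smul_snd, smul_eq_mul]
      linear_combination (Real.sin φ) * h1 - (t.2 - x.2) * hsq
  have h1 := hP.card_zeros x w ⟨0, by rw [zero_smul, add_zero]; exact hne⟩ (Z.image f) (by
    intro s hs
    rw [Finset.mem_image] at hs
    obtain ⟨t, ht, rfl⟩ := hs
    rw [← key t (h0 t ht).1]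
    exact (h0 t ht).2)
  rw [Finset.card_image_of_injOn] at h1
  · omega
  · intro t ht t' ht' htt
    rw [key t (h0 t ht).1, key t' (h0 t' ht').1, htt]

end Pool.Agent.MP_9673d9_co.Rich
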