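import Pool.Agent.MP_9673d9_co.Rich.Rich0
import Pool.Agent.MP_9673d9_co.Rich.Vanish

set_option autoImplicit false

open Finset

namespace Pool.Agent.MP_9673d9_co.Rich

/-- If all planes through two points of `S` have large imbalance then `F` vanishes on some plane through `p`, `q`.
Proof: `rich0` with `B = k + 2 j + 2` (so `B - 1 - 2 j = k + 1`, and `2 j + 3 ≤ B` as `1 ≤ k`).  Let
`P t = F (t.1 • (q - p) + t.2 • (a - p) + p)`, a `PF k` function on `ℝ × ℝ` (`PF.comp`, with the linear map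
`(LinearMap.fst ℝ ℝ ℝ).smulRight (q - p) + (LinearMap.snd ℝ ℝ ℝ).smulRight (a - p)`, as in the proof of
`exists_plane` in `Space.lean`).  For `φ ∈ E` the `k + 1` points of `S` with `h (s - p) = 0` and
`ev φ (A1 (s - p), A2 (s - p)) = c φ` give `k + 1` zeros of `P` on the line `ev φ = c φ`, so `P` vanishes on this line
(`line_vanish`); as `k + 1 ≤ 2 ^ j + 1 ≤ E.card`, `planar_vanish` gives `P = 0`.  The plane is `l = h`,
`c = -(h p)`: if `h x + -(h p) = 0` then `x = A1 (x - p) • (q - p) + A2 (x - p) • (a - p) + p`, so `F x = P (..) = 0`. -/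
theorem exists_plane2 {k : ℕ} {F : (Fin 3 → ℝ) → ℝ} (hF : PF k F) (hk : 1 ≤ k) (j : ℕ)
    (hj : k ≤ 2 ^ j) (S : Finset (Fin 3 → ℝ)) (hS : ∀ s ∈ S, F s = 0)
    (hbad : ∀ (l : (Fin 3 → ℝ) →ₗ[ℝ] ℝ) (c : ℝ), l ≠ 0 →
      2 ≤ (S.filter fun s => l s + c = 0).card →
      (k : ℤ) + 2 * (j : ℤ) + 2 < |∑ s ∈ S, sg (l s + c)|)
    (p q : Fin 3 → ℝ) (hp : p ∈ S) (hq : q ∈ S) (hpq : p ≠ q) :
    ∃ (l : (Fin 3 → ℝ) →ₗ[ℝ] ℝ) (c : ℝ), l ≠ 0 ∧ l p + c = 0 ∧ l q + c = 0 ∧
      ∀ x, l x + c = 0 → F x = 0 := by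
  classical
  obtain ⟨h, A1, A2, a, θ₀, E, c, hne0, hhw, hha', hA1w, hA2w, hA1a, hA2a, hcoord, hE, hE1, hE2⟩ :=
    rich0 S ((k : ℤ) + 2 * (j : ℤ) + 2) j (by omega) hbad p q hp hq hpq
  let B : ℝ × ℝ →ₗ[ℝ] (Fin 3 → ℝ) :=
    (LinearMap.fst ℝ ℝ ℝ).smulRight (q - p) + (LinearMap.snd ℝ ℝ ℝ).smulRight (a - p)
  have hB : ∀ t : ℝ × ℝ, B t = t.1 • (q - p) + t.2 • (a - p) := fun t => rfl
  let ψ : (Fin 3 → ℝ) → ℝ × ℝ := fun s => (A1 (s - p), A2 (s - p))
  have hBψ : ∀ x, h (x - p) = 0 → B (ψ x) + p = x := by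
    intro x hx
    rw [hB]
    have h1 := hcoord (x - p) hx
    change A1 (x - p) • (q - p) + A2 (x - p) • (a - p) + p = x
    rw [← h1, sub_add_cancel]
  have hP : PF k (fun t : ℝ × ℝ => F (B t + p)) := hF.comp B p
  have hzero : ∀ t : ℝ × ℝ, F (B t + p) = 0 := by
    refine planar_vanish k (fun t : ℝ × ℝ => F (B t + p)) hP E c θ₀ (by omega) hE1 ?_
    intro φ hφ x hx
    have h1 := (hE2 φ hφ).2
    set Z := S.filter fun s => h (s - p) = 0 ∧ ev φ (A1 (s - p), A2 (s - p)) = c φ with hZ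
    have hinj : Set.InjOn ψ Z := by
      intro s hs t ht hst
      rw [Finset.mem_coe, hZ, Finset.mem_filter] at hs ht
      rw [← hBψ s hs.2.1, ← hBψ t ht.2.1, hst]
    refine line_vanish hP φ (c φ) (Z.image ψ) ?_ ?_ x hx
    · rw [Finset.card_image_of_injOn hinj]
      omega
    · intro t ht
      rw [Finset.mem_image] at ht
      obtain ⟨s, hs, rfl⟩ := ht
      rw [hZ, Finset.mem_filter] at hs
      refine ⟨hs.2.2, ?_⟩
      rw [hBψ s hs.2.1]
      exact hS s hs.1
  refine ⟨h, -(h p), hne0, by ring, ?_, fun x hx => ?_⟩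
  · have h1 := hhw
    rw [map_sub] at h1
    linarith
  · have hx' : h (x - p) = 0 := by rw [map_sub]; linarith
    have h1 := hzero (ψ x)
    rwa [hBψ x hx'] at h1

/-- Finite subsets of a surface of degree `k`.
Proof: copy the proof of `surface` in `Space.lean` with `3 k - 2` replaced by `k + 2 * Nat.clog 2 k + 2` and
`exists_plane` by `exists_plane2` with `j = Nat.clog 2 (k + 1)` (`Nat.le_pow_clog`); for the last step use
`Nat.clog_mono_right`. -/
theorem surface2 (k : ℕ) : ∀ F : (Fin 3 → ℝ) → ℝ, PF k F → (∃ x, F x ≠ 0) →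
    ∀ S : Finset (Fin 3 → ℝ), 2 ≤ S.card → (∀ s ∈ S, F s = 0) →
    ∃ (l : (Fin 3 → ℝ) →ₗ[ℝ] ℝ) (c : ℝ), l ≠ 0 ∧ 2 ≤ (S.filter fun s => l s + c = 0).card ∧
      |∑ s ∈ S, sg (l s + c)| ≤ (k : ℤ) + 2 * (Nat.clog 2 k : ℤ) + 2 := by
  classical
  induction k with
  | zero =>
    intro F hF hne S hS2 hS
    exfalso
    obtain ⟨s, hs⟩ : S.Nonempty := by
      rw [← Finset.card_pos]
      omega
    obtain ⟨x, hx⟩ := hne
    have h1 := hF.card_zeros s (x - s) ⟨1, by rwa [one_smul, add_sub_cancel]⟩ {0} (by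
      intro t ht
      rw [Finset.mem_singleton] at ht
      rw [ht, zero_smul, add_zero]
      exact hS s hs)
    simp at h1
  | succ k ih =>
    intro F hF hne S hS2 hS
    by_contra hcon
    push Not at hcon
    have hbad : ∀ (l : (Fin 3 → ℝ) →ₗ[ℝ] ℝ) (c : ℝ), l ≠ 0 →
        2 ≤ (S.filter fun s => l s + c = 0).card →
        ((k + 1 : ℕ) : ℤ) + 2 * (Nat.clog 2 (k + 1) : ℤ) + 2 < |∑ s ∈ S, sg (l s + c)| := hcon
    obtain ⟨p, hp, q, hq, hpq⟩ := Finset.one_lt_card.1 (by omega : 1 < S.card)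
    obtain ⟨l, c, hl, hlp, hlq, hl0⟩ := exists_plane2 hF (by omega) (Nat.clog 2 (k + 1))
            (Nat.le_pow_clog (by norm_num) _) S hS hbad p q hp hq hpq
    obtain ⟨w0, hw0⟩ : ∃ w, l w ≠ 0 := by
      by_contra h
      push Not at h
      exact hl (LinearMap.ext h)
    obtain ⟨G, hG, -, hG1⟩ := hF.div' l c ((l w0)⁻¹ • w0) (by
      rw [map_smul, smul_eq_mul, inv_mul_cancel₀ hw0]) hl0
    rw [Nat.add_sub_cancel] at hG
    have hGne : ∃ x, G x ≠ 0 := by
      obtain ⟨x, hx⟩ := hne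
      refine ⟨x, fun h => hx ?_⟩
      rw [hG1, h, mul_zero]
    -- a point off the plane
    obtain ⟨r, hr, hlr⟩ : ∃ r ∈ S, l r + c ≠ 0 := by
      by_contra h
      push Not at h
      have h3 := hbad l c hl (by
        rw [Finset.filter_true_of_mem h]
        exact hS2)
      rw [Finset.sum_congr rfl (fun s hs => by rw [h s hs, sg_zero] : ∀ s ∈ S,
        sg (l s + c) = 0), Finset.sum_const_zero, abs_zero] at h3
      omega
    have hGS : ∀ s ∈ S, G s = 0 := by
      intro s hs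
      by_cases h0 : l s + c = 0
      · have hsr : s ≠ r := by
          rintro rfl
          exact hlr h0
        obtain ⟨l', c', -, h1, h2, h3⟩ := exists_plane2 hF (by omega) (Nat.clog 2 (k + 1))
            (Nat.le_pow_clog (by norm_num) _) S hS hbad s r hs hr hsr
        have h4 := hG.vanish s (r - s) (by
          intro t ht
          have h5 : F (s + t • (r - s)) = 0 := by
            apply h3
            rw [map_add, map_smul, map_sub, smul_eq_mul]
            linear_combination (1 - t) * h1 + t * h2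
          rw [hG1] at h5
          refine (mul_eq_zero.1 h5).resolve_left ?_
          rw [map_add, map_smul, map_sub, smul_eq_mul]
          intro h6
          have h7 : t * (l r + c) = 0 := by linear_combination h6 - (1 - t) * h0
          rcases mul_eq_zero.1 h7 with h8 | h8
          · exact ht h8
          · exact hlr h8) 0
        rwa [zero_smul, add_zero] at h4
      · have h1 := hS s hs
        rw [hG1] at h1
        exact (mul_eq_zero.1 h1).resolve_left h0
    obtain ⟨l', c', h1, h2, h3⟩ := ih G hG hGne S hS2 hGS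
    have h4 := hbad l' c' h1 h2
    have h5 : Nat.clog 2 k ≤ Nat.clog 2 (k + 1) := Nat.clog_mono_right 2 (Nat.le_succ k)
    omega

/-- With exceptional points.  Proof: copy the proof of `surface'` in `Space.lean`. -/
theorem surface2' (k : ℕ) (F : (Fin 3 → ℝ) → ℝ) (hF : PF k F) (hF0 : ∃ x, F x ≠ 0)
    (S : Finset (Fin 3 → ℝ)) (hS2 : 2 ≤ S.card) :
    ∃ (l : (Fin 3 → ℝ) →ₗ[ℝ] ℝ) (c : ℝ), l ≠ 0 ∧ 2 ≤ (S.filter fun s => l s + c = 0).card ∧
      |∑ s ∈ S, sg (l s + c)| ≤ (k : ℤ) + 2 * (Nat.clog 2 k : ℤ) + 2 +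
        ((S.filter fun s => F s ≠ 0).card : ℤ) := by
  classical
  have hcard := Finset.card_filter_add_card_filter_not (s := S) (fun s => F s = 0)
  have hk0 : k = 0 → (S.filter fun s => F s = 0).card = 0 := by
    rintro rfl
    rw [Finset.card_eq_zero, Finset.filter_eq_empty_iff]
    intro s _ hs
    obtain ⟨x, hx⟩ := hF0
    have h1 := hF.card_zeros s (x - s) ⟨1, by rwa [one_smul, add_sub_cancel]⟩ {0} (by
      intro t ht
      rw [Finset.mem_singleton] at ht
      rwa [ht, zero_smul, add_zero])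
    simp at h1
  rcases Nat.lt_or_ge (S.filter fun s => F s = 0).card 2 with h | h
  · -- any plane through two points
    obtain ⟨p, hp, q, hq, hpq⟩ := Finset.one_lt_card.1 (by omega : 1 < S.card)
    obtain ⟨κ, g, e, hκw, hgw, hew, hker, hind⟩ := exists_frame (q - p) (sub_ne_zero.2 hpq.symm)
    have hgp : g p + -(g p) = 0 := by ring
    have hgq : g q + -(g p) = 0 := by
      rw [map_sub] at hgw
      linarith
    have h2 : 2 ≤ (S.filter fun s => g s + -(g p) = 0).card := by
      have h4 : ({p, q} : Finset (Fin 3 → ℝ)) ⊆ S.filter fun s => g s + -(g p) = 0 := by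
        intro x hx
        rw [Finset.mem_insert, Finset.mem_singleton] at hx
        rcases hx with rfl | rfl
        · exact Finset.mem_filter.2 ⟨hp, hgp⟩
        · exact Finset.mem_filter.2 ⟨hq, hgq⟩
      have h5 := Finset.card_le_card h4
      rwa [Finset.card_pair hpq] at h5
    refine ⟨g, -(g p), ?_, h2, ?_⟩
    · rintro rfl
      have h1 := hind 1 0 (by
        intro y
        rw [LinearMap.zero_apply]
        ring)
      exact one_ne_zero h1.1
    · have h3 : |∑ s ∈ S, sg (g s + -(g p))| ≤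
          ((S.filter fun s => ¬ g s + -(g p) = 0).card : ℤ) := by
        have h4 : ∑ s ∈ S, sg (g s + -(g p)) =
            ∑ s ∈ S.filter (fun s => ¬ g s + -(g p) = 0), sg (g s + -(g p)) := by
          rw [Finset.sum_filter]
          refine Finset.sum_congr rfl fun s _ => ?_
          by_cases h5 : g s + -(g p) = 0
          · rw [if_neg (not_not.2 h5), h5, sg_zero]
          · rw [if_pos h5]
        rw [h4]
        refine (Finset.abs_sum_le_sum_abs _ _).trans ?_
        refine (Finset.sum_le_sum fun t _ => abs_sg_le _).trans ?_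
        rw [Finset.sum_const, nsmul_eq_mul, mul_one]
      have h4 := Finset.card_filter_add_card_filter_not (s := S) (fun s => g s + -(g p) = 0)
      have h5 : (S.filter fun s => ¬ F s = 0).card = (S.filter fun s => F s ≠ 0).card := rfl
      omega
  · obtain ⟨l, c, h1, h2, h3⟩ := surface2 k F hF hF0 (S.filter fun s => F s = 0) h
      (fun s hs => (Finset.mem_filter.1 hs).2)
    refine ⟨l, c, h1, ?_, ?_⟩
    · refine h2.trans (Finset.card_le_card fun s hs => ?_)
      rw [Finset.mem_filter, Finset.mem_filter] at hs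
      exact Finset.mem_filter.2 ⟨hs.1.1, hs.2⟩
    · rw [← Finset.sum_filter_add_sum_filter_not S (fun s => F s = 0)]
      refine (abs_add_le _ _).trans (add_le_add h3 ?_)
      refine (Finset.abs_sum_le_sum_abs _ _).trans ?_
      refine (Finset.sum_le_sum fun t _ => abs_sg_le _).trans ?_
      rw [Finset.sum_const, nsmul_eq_mul, mul_one]

end Pool.Agent.MP_9673d9_co.Rich
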